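import Pool.Agent.H497_Compat.CExist

/-!
# The Countryman line of a coherent family of finite-to-one functions
-/

set_option autoImplicit false

open Set

namespace Pool.Agent.H497.Gen

open Pool.Agent.Helper330.DPK.Coh

/-- a coherent family of finite-to-one functions -/
structure Fam where
  /-- the functions -/
  f : W → W → ℕ
  fin : ∀ a m, {x | x < a ∧ f a x ≤ m}.Finite
  coh : ∀ a b, {x | x < a ∧ x < b ∧ f a x ≠ f b x}.Finite

variable {e : Fam}

open Classical in
/-- the finite-to-one function with domain `α`, extended by zero -/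
noncomputable def eh (e : Fam) (α ξ : W) : ℕ := if ξ < α then e.f α ξ + 1 else 0

theorem eh_lt {α ξ : W} (h : ξ < α) : eh e α ξ = e.f α ξ + 1 := if_pos h

theorem eh_ge {α ξ : W} (h : α ≤ ξ) : eh e α ξ = 0 := if_neg (not_lt.2 h)

theorem eh_pos {α ξ : W} (h : ξ < α) : 0 < eh e α ξ := by rw [eh_lt h]; omega

theorem lt_of_eh_pos {α ξ : W} (h : 0 < eh e α ξ) : ξ < α := by
  by_contra h1
  rw [eh_ge (not_lt.1 h1)] at h
  exact lt_irrefl _ h

theorem fin_ne (α β : W) : {ξ | ξ ≤ min α β ∧ eh e α ξ ≠ eh e β ξ}.Finite := by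
  apply ((e.coh α β).union (finite_singleton (min α β))).subset
  rintro ξ ⟨h1, h2⟩
  rcases h1.eq_or_lt with h | h
  · right; exact h
  · left
    obtain ⟨ha, hb⟩ := lt_min_iff.1 h
    refine ⟨ha, hb, fun h3 => h2 ?_⟩
    rw [eh_lt ha, eh_lt hb, h3]

theorem exists_bd (α β : W) : ∃ n : ℕ, ∀ ξ ≤ min α β, eh e α ξ ≠ eh e β ξ → eh e α ξ ≤ n ∧ eh e β ξ ≤ n := by
  obtain ⟨n, hn⟩ := ((fin_ne α β).image fun ξ => max (eh e α ξ) (eh e β ξ)).bddAbove
  refine ⟨n, fun ξ h1 h2 => ?_⟩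
  have := hn ⟨ξ, ⟨h1, h2⟩, rfl⟩
  exact max_le_iff.1 this

/-- a bound of the values of the two functions where they differ -/
noncomputable def bd (e : Fam) (α β : W) : ℕ := (exists_bd (e := e) α β).choose

theorem bd_spec {α β ξ : W} (h : ξ ≤ min α β) (h' : eh e α ξ ≠ eh e β ξ) :
    eh e α ξ ≤ bd e α β ∧ eh e β ξ ≤ bd e α β := (exists_bd α β).choose_spec ξ h h'

theorem fin_F (α β : W) (n : ℕ) : {ξ | ξ ≤ min α β ∧ (eh e α ξ ≤ n ∨ eh e β ξ ≤ n)}.Finite := by
  apply (((e.fin α n).union (e.fin β n)).union (finite_singleton (min α β))).subset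
  rintro ξ ⟨h1, h2⟩
  rcases h1.eq_or_lt with h | h
  · right; exact h
  · left
    obtain ⟨ha, hb⟩ := lt_min_iff.1 h
    rcases h2 with h2 | h2
    · left; refine ⟨ha, ?_⟩
      rw [eh_lt ha] at h2; omega
    · right; refine ⟨hb, ?_⟩
      rw [eh_lt hb] at h2; omega

/-- the finite set where one of the values is small -/
noncomputable def Fs (e : Fam) (α β : W) : Finset W := (fin_F (e := e) α β (bd e α β)).toFinset

theorem mem_Fs {α β ξ : W} :
    ξ ∈ Fs e α β ↔ ξ ≤ min α β ∧ (eh e α ξ ≤ bd e α β ∨ eh e β ξ ≤ bd e α β) := by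
  rw [Fs, Set.Finite.mem_toFinset]; rfl

open Classical in
/-- the isomorphism type of the finite structure -/
noncomputable def code (e : Fam) (α β : W) : Finset (ℕ × ℕ × ℕ) :=
  (Fs e α β).image fun ξ => (((Fs e α β).filter (· < ξ)).card, eh e α ξ, eh e β ξ)

open Classical in
theorem card_filter_inj {F : Finset W} {ξ η : W} (h1 : ξ ∈ F) (h2 : η ∈ F)
    (h : (F.filter (· < ξ)).card = (F.filter (· < η)).card) : ξ = η := by
  have key : ∀ a b : W, a ∈ F → a < b → (F.filter (· < a)).card < (F.filter (· < b)).card := by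
    intro a b ha hab
    apply Finset.card_lt_card
    rw [Finset.ssubset_iff_of_subset]
    · exact ⟨a, by simp [ha, hab], by simp⟩
    · intro x hx
      simp only [Finset.mem_filter] at hx ⊢
      exact ⟨hx.1, hx.2.trans hab⟩
  rcases lt_trichotomy ξ η with h3 | h3 | h3
  · exact absurd h (key _ _ h1 h3).ne
  · exact h3
  · exact absurd h.symm (key _ _ h2 h3).ne

theorem lex_lt {x y : Lex (W → ℕ)} (ξ : W) (h1 : ∀ η < ξ, x η = y η) (h2 : x ξ < y ξ) : x < y :=
  ⟨ξ, h1, h2⟩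

/-- the point of the line given by `α` -/
noncomputable def pt (e : Fam) (α : W) : Lex (W → ℕ) := toLex (eh e α)

theorem pt_apply (α ξ : W) : pt e α ξ = eh e α ξ := rfl

theorem pt_inj {α β : W} (h : pt e α = pt e β) : α = β := by
  have h' : ∀ ξ, eh e α ξ = eh e β ξ := fun ξ => congrFun h ξ
  rcases lt_trichotomy α β with h3 | h3 | h3
  · have := h' α
    rw [eh_ge le_rfl] at this
    exact absurd this (eh_pos h3).ne
  · exact h3
  · have := h' β
    rw [eh_ge le_rfl] at this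
    exact absurd this (eh_pos h3).ne'

/-- if the functions agree up to and including `α` then they are equal -/
theorem eq_of_agree {α γ : W} (h : ∀ η ≤ α, eh e α η = eh e γ η) : α = γ := by
  apply le_antisymm
  · by_contra h1
    rw [not_le] at h1
    have := h γ h1.le
    rw [eh_ge (le_refl γ)] at this
    exact absurd this (eh_pos h1).ne'
  · by_contra h1
    rw [not_le] at h1
    have := h α le_rfl
    rw [eh_ge (le_refl α)] at this
    exact absurd this (eh_pos h1).ne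

theorem comparable {α β γ δ : W} (hn : bd e α β = bd e γ δ) (hc : code e α β = code e γ δ) :
    (pt e α ≤ pt e γ ∧ pt e β ≤ pt e δ) ∨ (pt e γ ≤ pt e α ∧ pt e δ ≤ pt e β) := by
  classical
  by_cases hac : α = γ
  · subst hac
    rcases le_total (pt e β) (pt e δ) with h | h
    · left; exact ⟨le_rfl, h⟩
    · right; exact ⟨le_rfl, h⟩
  by_cases hbd : β = δ
  · subst hbd
    rcases le_total (pt e α) (pt e γ) with h | h
    · left; exact ⟨h, le_rfl⟩
    · right; exact ⟨h, le_rfl⟩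
  have hex : {ξ : W | eh e α ξ ≠ eh e γ ξ ∨ eh e β ξ ≠ eh e δ ξ}.Nonempty := by
    by_contra h
    rw [not_nonempty_iff_eq_empty] at h
    apply hac
    apply eq_of_agree
    intro η _
    by_contra h1
    have : η ∈ {ξ : W | eh e α ξ ≠ eh e γ ξ ∨ eh e β ξ ≠ eh e δ ξ} := Or.inl h1
    rw [h] at this
    exact this
  obtain ⟨ξ, hξ, hmin⟩ : ∃ ξ, (eh e α ξ ≠ eh e γ ξ ∨ eh e β ξ ≠ eh e δ ξ) ∧
      ∀ η < ξ, eh e α η = eh e γ η ∧ eh e β η = eh e δ η := by
    refine ⟨(wellFounded_lt (α := W)).min _ hex, (wellFounded_lt (α := W)).min_mem _ hex, ?_⟩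
    intro η hη
    have := (wellFounded_lt (α := W)).not_lt_min
      {ξ : W | eh e α ξ ≠ eh e γ ξ ∨ eh e β ξ ≠ eh e δ ξ} (x := η)
    by_contra h1
    apply this _ hη
    by_contra h2
    apply h1
    constructor
    · by_contra h3; exact h2 (Or.inl h3)
    · by_contra h3; exact h2 (Or.inr h3)
  have hξ1 : ξ ≤ α := by
    by_contra h; rw [not_le] at h
    exact hac (eq_of_agree fun η hη => (hmin η (hη.trans_lt h)).1)
  have hξ2 : ξ ≤ β := by
    by_contra h; rw [not_le] at h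
    exact hbd (eq_of_agree fun η hη => (hmin η (hη.trans_lt h)).2)
  have hξ3 : ξ ≤ γ := by
    by_contra h; rw [not_le] at h
    exact hac (eq_of_agree fun η hη => (hmin η (hη.trans_lt h)).1.symm).symm
  have hξ4 : ξ ≤ δ := by
    by_contra h; rw [not_le] at h
    exact hbd (eq_of_agree fun η hη => (hmin η (hη.trans_lt h)).2.symm).symm
  have hfil : (Fs e α β).filter (· < ξ) = (Fs e γ δ).filter (· < ξ) := by
    ext η
    simp only [Finset.mem_filter, mem_Fs]
    constructor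
    · rintro ⟨⟨-, h2⟩, h3⟩
      refine ⟨⟨le_min (h3.le.trans hξ3) (h3.le.trans hξ4), ?_⟩, h3⟩
      rw [← (hmin η h3).1, ← (hmin η h3).2, ← hn]; exact h2
    · rintro ⟨⟨-, h2⟩, h3⟩
      refine ⟨⟨le_min (h3.le.trans hξ1) (h3.le.trans hξ2), ?_⟩, h3⟩
      rw [(hmin η h3).1, (hmin η h3).2, hn]; exact h2
  by_cases hF : ξ ∈ Fs e α β
  · by_cases hF' : ξ ∈ Fs e γ δ
    · exfalso
      have h1 : (((Fs e α β).filter (· < ξ)).card, eh e α ξ, eh e β ξ) ∈ code e γ δ := by
        rw [← hc]; exact Finset.mem_image_of_mem _ hF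
      obtain ⟨η, hη, h2⟩ := Finset.mem_image.1 h1
      rw [hfil] at h2
      have h3 : η = ξ := card_filter_inj hη hF' (congrArg Prod.fst h2)
      subst h3
      have h4 := congrArg Prod.snd h2
      rcases hξ with h5 | h5
      · exact h5 (congrArg Prod.fst h4).symm
      · exact h5 (congrArg Prod.snd h4).symm
    · left
      have h1 : ¬ (eh e γ ξ ≤ bd e γ δ ∨ eh e δ ξ ≤ bd e γ δ) := fun h => hF' (mem_Fs.2 ⟨le_min hξ3 hξ4, h⟩)
      push Not at h1
      have h2 : eh e α ξ ≤ bd e α β ∧ eh e β ξ ≤ bd e α β := by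
        by_cases h3 : eh e α ξ = eh e β ξ
        · rcases (mem_Fs.1 hF).2 with h4 | h4
          · exact ⟨h4, h3 ▸ h4⟩
          · exact ⟨h3 ▸ h4, h4⟩
        · exact bd_spec (le_min hξ1 hξ2) h3
      rw [hn] at h2
      refine ⟨(lex_lt ξ (fun η hη => (hmin η hη).1) ?_).le,
        (lex_lt ξ (fun η hη => (hmin η hη).2) ?_).le⟩
      · exact h2.1.trans_lt h1.1
      · exact h2.2.trans_lt h1.2
  · have h0 : ¬ (eh e α ξ ≤ bd e α β ∨ eh e β ξ ≤ bd e α β) := fun h => hF (mem_Fs.2 ⟨le_min hξ1 hξ2, h⟩)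
    push Not at h0
    by_cases hF' : ξ ∈ Fs e γ δ
    · right
      have h2 : eh e γ ξ ≤ bd e γ δ ∧ eh e δ ξ ≤ bd e γ δ := by
        by_cases h3 : eh e γ ξ = eh e δ ξ
        · rcases (mem_Fs.1 hF').2 with h4 | h4
          · exact ⟨h4, h3 ▸ h4⟩
          · exact ⟨h3 ▸ h4, h4⟩
        · exact bd_spec (le_min hξ3 hξ4) h3
      rw [← hn] at h2
      refine ⟨(lex_lt ξ (fun η hη => (hmin η hη).1.symm) ?_).le,
        (lex_lt ξ (fun η hη => (hmin η hη).2.symm) ?_).le⟩
      · exact h2.1.trans_lt h0.1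
      · exact h2.2.trans_lt h0.2
    · have h1 : ¬ (eh e γ ξ ≤ bd e γ δ ∨ eh e δ ξ ≤ bd e γ δ) :=
        fun h => hF' (mem_Fs.2 ⟨le_min hξ3 hξ4, h⟩)
      push Not at h1
      have h2 : eh e α ξ = eh e β ξ := by
        by_contra h3
        exact absurd (bd_spec (le_min hξ1 hξ2) h3).1 (not_le.2 h0.1)
      have h3 : eh e γ ξ = eh e δ ξ := by
        by_contra h3
        exact absurd (bd_spec (le_min hξ3 hξ4) h3).1 (not_le.2 h1.1)
      have h4 : eh e α ξ ≠ eh e γ ξ := by
        rcases hξ with h5 | h5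
        · exact h5
        · rw [h2, h3]; exact h5
      rcases lt_or_gt_of_ne h4 with h5 | h5
      · left
        refine ⟨(lex_lt ξ (fun η hη => (hmin η hη).1) h5).le,
          (lex_lt ξ (fun η hη => (hmin η hη).2) ?_).le⟩
        show eh e β ξ < eh e δ ξ
        rw [← h2, ← h3]; exact h5
      · right
        refine ⟨(lex_lt ξ (fun η hη => (hmin η hη).1.symm) h5).le,
          (lex_lt ξ (fun η hη => (hmin η hη).2.symm) ?_).le⟩
        show eh e δ ξ < eh e β ξ
        rw [← h2, ← h3]; exact h5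

/-- the Countryman line -/
def CLine (e : Fam) : Set (Lex (W → ℕ)) := range (pt e)

theorem countryman_CLine (e : Fam) : Countryman (CLine e) := by
  classical
  constructor
  · have hinj : Function.Injective (fun α : W => (⟨pt e α, α, rfl⟩ : CLine e)) := by
      intro α β h
      exact pt_inj (congrArg Subtype.val h)
    have := uncountable_W
    exact hinj.uncountable
  · -- enumerate the types
    obtain ⟨g, hg⟩ := exists_surjective_nat (ℕ × Finset (ℕ × ℕ × ℕ))
    refine ⟨fun k => {p | ∃ α β : W, p.1.1 = pt e α ∧ p.2.1 = pt e β ∧ (bd e α β, code e α β) = g k}, ?_, ?_⟩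
    · refine eq_univ_of_forall fun p => ?_
      obtain ⟨⟨x, α, hα⟩, ⟨y, β, hβ⟩⟩ := p
      obtain ⟨k, hk⟩ := hg (bd e α β, code e α β)
      exact mem_iUnion.2 ⟨k, α, β, hα.symm, hβ.symm, hk.symm⟩
    · rintro k ⟨⟨x, hx⟩, ⟨y, hy⟩⟩ ⟨α, β, h1, h2, h3⟩ ⟨⟨z, hz⟩, ⟨w, hw⟩⟩ ⟨γ, δ, h4, h5, h6⟩ -
      simp only at h1 h2 h4 h5
      subst h1 h2 h4 h5
      rw [← h6, Prod.mk.injEq] at h3
      rcases comparable h3.1 h3.2 with h | h
      · left; exact ⟨h.1, h.2⟩
      · right; exact ⟨h.1, h.2⟩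

end Pool.Agent.H497.Gen
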