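import Pool.Agent.H497_Compat.Defs

/-!
# Countryman lines are Aronszajn lines which contain no Suslin line
-/

set_option autoImplicit false

open Set

namespace Pool.Agent.H497

/-- an uncountable set has an uncountable fibre over a countable set -/
theorem exists_fiber {α ι : Type*} [Countable ι] {s : Set α} (hs : ¬ s.Countable) (f : α → ι) :
    ∃ n, ¬ {x ∈ s | f x = n}.Countable := by
  by_contra h
  push Not at h
  apply hs
  apply (countable_iUnion h).mono
  intro x hx
  exact mem_iUnion.2 ⟨f x, hx, rfl⟩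

/-- an uncountable well-ordered set has an uncountable subset with countable initial segments -/
theorem exists_init {C : Type*} [LinearOrder C] {s : Set C} (hs : ¬ s.Countable)
    (hwf : s.WellFoundedOn (· < ·)) :
    ∃ t ⊆ s, ¬ t.Countable ∧ ∀ x ∈ t, {y ∈ t | y ≤ x}.Countable := by
  classical
  refine ⟨{x ∈ s | {y ∈ s | y < x}.Countable}, fun x hx => hx.1, ?_, ?_⟩
  · intro hc
    have hne : (s \ {x ∈ s | {y ∈ s | y < x}.Countable}).Nonempty := by
      by_contra h
      rw [not_nonempty_iff_eq_empty, sdiff_eq_empty] at h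
      exact hs (hc.mono h)
    have hwf' : (s \ {x ∈ s | {y ∈ s | y < x}.Countable}).WellFoundedOn (· < ·) :=
      hwf.subset sdiff_subset
    obtain ⟨m, hm, hmin⟩ : ∃ m ∈ s \ {x ∈ s | {y ∈ s | y < x}.Countable},
        ∀ y ∈ s \ {x ∈ s | {y ∈ s | y < x}.Countable}, ¬ y < m := by
      obtain ⟨m, hm⟩ := hne
      have := wellFoundedOn_iff_no_descending_seq.1 hwf'
      have h2 := hwf'.has_min univ ⟨⟨m, hm⟩, mem_univ _⟩
      obtain ⟨⟨m', hm'⟩, -, h3⟩ := h2
      exact ⟨m', hm', fun y hy => h3 ⟨y, hy⟩ (mem_univ _)⟩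
    apply hm.2
    refine ⟨hm.1, hc.mono ?_⟩
    intro y hy
    by_contra h4
    exact hmin y ⟨hy.1, h4⟩ hy.2
  · intro x hx
    apply (hx.2.insert x).mono
    rintro y ⟨hy, hyx⟩
    rcases hyx.eq_or_lt with h | h
    · left; exact h
    · right; exact ⟨hy.1, h⟩

/-- the square is covered by countably many chains -/
def SqCover (C : Type) [LinearOrder C] : Prop :=
  ∃ K : ℕ → Set (C × C), (⋃ n, K n) = univ ∧ ∀ n, IsChain (· ≤ ·) (K n)

theorem SqCover.sub {C : Type} [LinearOrder C] (h : SqCover C) (s : Set C) : SqCover s := by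
  obtain ⟨K, h1, h2⟩ := h
  refine ⟨fun n => {p | ((p.1 : C), (p.2 : C)) ∈ K n}, ?_, ?_⟩
  · refine eq_univ_of_forall fun p => ?_
    have : ((p.1 : C), (p.2 : C)) ∈ ⋃ n, K n := by rw [h1]; trivial
    obtain ⟨n, hn⟩ := mem_iUnion.1 this
    exact mem_iUnion.2 ⟨n, hn⟩
  · intro n p hp q hq hne
    have hne' : ((p.1 : C), (p.2 : C)) ≠ ((q.1 : C), (q.2 : C)) := by
      intro h
      apply hne
      rw [Prod.mk.injEq] at h
      exact Prod.ext (Subtype.ext h.1) (Subtype.ext h.2)
    exact h2 n hp hq hne'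

theorem SqCover.dual {C : Type} [LinearOrder C] (h : SqCover C) : SqCover Cᵒᵈ := by
  obtain ⟨K, h1, h2⟩ := h
  refine ⟨fun n => {p | (OrderDual.ofDual p.1, OrderDual.ofDual p.2) ∈ K n}, ?_, ?_⟩
  · refine eq_univ_of_forall fun p => ?_
    have : (OrderDual.ofDual p.1, OrderDual.ofDual p.2) ∈ ⋃ n, K n := by rw [h1]; trivial
    obtain ⟨n, hn⟩ := mem_iUnion.1 this
    exact mem_iUnion.2 ⟨n, hn⟩
  · intro n p hp q hq hne
    have hne' : (OrderDual.ofDual p.1, OrderDual.ofDual p.2) ≠
        (OrderDual.ofDual q.1, OrderDual.ofDual q.2) := by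
      intro h
      apply hne
      rw [Prod.mk.injEq] at h
      exact Prod.ext h.1 h.2
    rcases h2 n hp hq hne' with h3 | h3
    · right; exact h3
    · left; exact h3

/-- two points of a chain of pairs, with different first coordinates -/
theorem chain_le {C : Type*} [LinearOrder C] {K : Set (C × C)} (hK : IsChain (· ≤ ·) K)
    {a b c d : C} (h1 : (a, b) ∈ K) (h2 : (c, d) ∈ K) (hac : a < c) : b ≤ d := by
  rcases hK.total h1 h2 with h | h
  · exact h.2
  · exact absurd h.1 (not_le.2 hac)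

theorem SqCover.wf {C : Type} [LinearOrder C] (h : SqCover C) (s : Set C)
    (hs : s.WellFoundedOn (· < ·)) : s.Countable := by
  classical
  by_contra hc
  obtain ⟨t, -, htc, hini⟩ := exists_init hc hs
  obtain ⟨K, h1, h2⟩ := h
  have hmem : ∀ x y : C, ∃ n, (x, y) ∈ K n := fun x y => by
    have : (x, y) ∈ ⋃ n, K n := by rw [h1]; trivial
    exact mem_iUnion.1 this
  choose c hcK using hmem
  have hn : ∀ x : C, ∃ n, ¬ {y ∈ t | c x y = n}.Countable := fun x => exists_fiber htc (c x)
  choose n hn using hn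
  apply htc
  refine MapsTo.countable_of_injOn (f := n) (t := univ) (fun _ _ => mem_univ _) ?_ countable_univ
  have key : ∀ x ∈ t, ∀ x' ∈ t, x < x' → n x ≠ n x' := by
    intro x hx x' hx' hlt heq
    have hne : {y ∈ t | c x' y = n x'}.Nonempty := by
      by_contra h3
      rw [not_nonempty_iff_eq_empty] at h3
      apply hn x'
      rw [h3]
      exact countable_empty
    obtain ⟨y', hy't, hy'⟩ := hne
    have hex : ∃ y ∈ {y ∈ t | c x y = n x}, y' < y := by
      by_contra h3
      push Not at h3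
      apply hn x
      refine (hini y' hy't).mono ?_
      intro y hy
      exact ⟨hy.1, h3 y hy⟩
    obtain ⟨y, ⟨hyt, hy⟩, hlt'⟩ := hex
    have h4 : (x, y) ∈ K (n x) := hy ▸ hcK x y
    have h5 : (x', y') ∈ K (n x) := by rw [heq, ← hy']; exact hcK x' y'
    exact absurd (chain_le (h2 _) h4 h5 hlt) (not_le.2 hlt')
  intro x hx x' hx' heq
  rcases lt_trichotomy x x' with h3 | h3 | h3
  · exact absurd heq (key x hx x' hx' h3)
  · exact h3
  · exact absurd heq.symm (key x' hx' x hx h3)

/-- three elements of an uncountable set -/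
theorem exists_three {C : Type*} [LinearOrder C] {s : Set C} (hs : ¬ s.Countable) :
    ∃ a ∈ s, ∃ b ∈ s, ∃ c ∈ s, a < b ∧ b < c := by
  have hinf : s.Infinite := fun hf => hs hf.countable
  obtain ⟨t, hts, htf, htc⟩ := hinf.exists_subset_ncard_eq 3
  have htf' := htf
  lift t to Finset C using htf
  rw [ncard_coe_finset] at htc
  let e := t.orderIsoOfFin htc
  refine ⟨e 0, hts (e 0).2, e 1, hts (e 1).2, e 2, hts (e 2).2, ?_, ?_⟩
  · exact e.strictMono (by decide)
  · exact e.strictMono (by decide)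

/-- an uncountable line whose square is covered by countably many chains has uncountably many
disjoint intervals -/
theorem SqCover.not_ccc {C : Type} [LinearOrder C] (h : SqCover C) (hC : Uncountable C) :
    ∃ F : Set (Set C), (∀ I ∈ F, I.Nonempty ∧ ∃ a b : C, I = Ioo a b) ∧
      F.PairwiseDisjoint id ∧ ¬ F.Countable := by
  classical
  obtain ⟨K, h1, h2⟩ := h
  have hmem : ∀ x y : C, ∃ n, (x, y) ∈ K n := fun x y => by
    have : (x, y) ∈ ⋃ n, K n := by rw [h1]; trivial
    exact mem_iUnion.1 this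
  choose c hcK using hmem
  have hCu : ¬ (univ : Set C).Countable := by
    rw [countable_univ_iff]
    exact not_countable_iff.2 hC
  have hn : ∀ x : C, ∃ n, ¬ {y ∈ univ | c x y = n}.Countable := fun x => exists_fiber hCu (c x)
  choose n hn using hn
  have h3 := fun x => exists_three (hn x)
  choose y1 hy1 y2 hy2 y3 hy3 h12 h23 using h3
  obtain ⟨m, hm⟩ := exists_fiber hCu n
  have key : ∀ x x', n x = m → n x' = m → x < x' → y3 x ≤ y1 x' := by
    intro x x' hx hx' hlt
    have h4 : (x, y3 x) ∈ K m := by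
      rw [← hx, ← (hy3 x).2]; exact hcK _ _
    have h5 : (x', y1 x') ∈ K m := by
      rw [← hx', ← (hy1 x').2]; exact hcK _ _
    exact chain_le (h2 _) h4 h5 hlt
  have hdisj : ∀ x x', n x = m → n x' = m → x < x' →
      Disjoint (Ioo (y1 x) (y3 x)) (Ioo (y1 x') (y3 x')) := by
    intro x x' hx hx' hlt
    rw [disjoint_left]
    rintro z ⟨-, hz1⟩ ⟨hz2, -⟩
    exact absurd ((hz1.trans_le (key x x' hx hx' hlt)).trans hz2) (lt_irrefl _)
  have hne : ∀ x, (Ioo (y1 x) (y3 x)).Nonempty := fun x => ⟨y2 x, h12 x, h23 x⟩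
  refine ⟨(fun x => Ioo (y1 x) (y3 x)) '' {x ∈ univ | n x = m}, ?_, ?_, ?_⟩
  · rintro I ⟨x, -, rfl⟩
    exact ⟨hne x, _, _, rfl⟩
  · rintro I ⟨x, ⟨-, hx⟩, rfl⟩ J ⟨x', ⟨-, hx'⟩, rfl⟩ hIJ
    rcases lt_trichotomy x x' with h4 | h4 | h4
    · exact hdisj x x' hx hx' h4
    · exact absurd (by rw [h4]) hIJ
    · exact (hdisj x' x hx' hx h4).symm
  · intro hcount
    apply hm
    refine countable_of_injective_of_countable_image (f := fun x => Ioo (y1 x) (y3 x)) ?_ hcount
    rintro x ⟨-, hx⟩ x' ⟨-, hx'⟩ heq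
    simp only at heq
    rcases lt_trichotomy x x' with h4 | h4 | h4
    · have := hdisj x x' hx hx' h4
      rw [heq, disjoint_self] at this
      exact absurd this (hne x').ne_empty
    · exact h4
    · have := hdisj x' x hx' hx h4
      rw [heq, disjoint_self] at this
      exact absurd this (hne x').ne_empty

/-- a separable line has the countable chain condition -/
theorem IsSep.ccc {L : Type} [LinearOrder L] (h : IsSep L) (F : Set (Set L))
    (hF : ∀ I ∈ F, I.Nonempty ∧ ∃ a b : L, I = Ioo a b) (hd : F.PairwiseDisjoint id) :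
    F.Countable := by
  let _ : TopologicalSpace L := Preorder.topology L
  have _ : OrderTopology L := ⟨rfl⟩
  have _ : TopologicalSpace.SeparableSpace L := h
  refine hd.countable_of_isOpen (ι := Set L) ?_ ?_
  · intro I hI
    obtain ⟨-, a, b, rfl⟩ := hF I hI
    exact isOpen_Ioo
  · intro I hI
    exact (hF I hI).1

theorem isSep_of_countable {L : Type} [LinearOrder L] (h : Countable L) : IsSep L := by
  let _ : TopologicalSpace L := Preorder.topology L
  show TopologicalSpace.SeparableSpace L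
  infer_instance

theorem Countryman.good {C : Type} [LinearOrder C] (h : Countryman C) : Good C := by
  have hC : SqCover C := h.2
  refine ⟨⟨h.1, fun s hs => hC.wf s hs, ?_, ?_⟩, ?_⟩
  · intro s hs
    exact hC.dual.wf (C := Cᵒᵈ) s hs
  · intro s hs
    by_contra hc
    have hu : Uncountable s := not_countable_iff.1 hc
    obtain ⟨F, h1, h2, h3⟩ := (hC.sub s).not_ccc hu
    exact h3 (hs.ccc F h1 h2)
  · rintro s ⟨h1, h2⟩
    have hu : Uncountable s := by
      rw [← not_countable_iff]
      intro hc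
      exact h1 (isSep_of_countable hc)
    obtain ⟨F, h3, h4, h5⟩ := (hC.sub s).not_ccc hu
    exact h5 (h2 F h3 h4)

end Pool.Agent.H497
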