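import Pool.Agent.H497_Compat.Sub

/-!
# Heights in trees, and lexicographic orders on trees
-/

set_option autoImplicit false

open Set

namespace Pool.Agent.H497

theorem IsTree.wf {T : Type} [PartialOrder T] (hT : IsTree T) : WellFoundedLT T := by
  refine ⟨WellFounded.wellFounded_iff_has_min.2 ?_⟩
  rintro s ⟨a, ha⟩
  by_cases h : (s ∩ Iio a).Nonempty
  · obtain ⟨b, hb, hba⟩ := h
    have := hT a
    have hwf : WellFounded (α := Iio a) (· < ·) := (hT a).wf
    obtain ⟨m, hm, hmin⟩ := hwf.has_min (s := {x : Iio a | (x : T) ∈ s}) ⟨⟨b, hba⟩, hb⟩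
    refine ⟨m, hm, fun x hx hxm => ?_⟩
    exact hmin ⟨x, lt_trans hxm m.2⟩ hx hxm
  · refine ⟨a, ha, fun x hx hxa => h ⟨x, hx, hxa⟩⟩

theorem IsTree.total {T : Type} [PartialOrder T] (hT : IsTree T) {x y z : T} (hx : x ≤ z)
    (hy : y ≤ z) : x ≤ y ∨ y ≤ x := by
  rcases hx.eq_or_lt with rfl | hx
  · right; exact hy
  rcases hy.eq_or_lt with rfl | hy
  · left; exact hx.le
  have := hT z
  rcases trichotomous_of (α := Iio z) (· < ·) ⟨x, hx⟩ ⟨y, hy⟩ with h | h | h
  · left; exact le_of_lt h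
  · left; exact (congrArg Subtype.val h).le
  · right; exact le_of_lt h

section rank

variable {T : Type} [PartialOrder T] [WellFoundedLT T]

/-- the height of a node -/
noncomputable def rk (t : T) : Ordinal.{0} := IsWellFounded.rank (· < ·) t

theorem rk_lt {x y : T} (h : x < y) : rk x < rk y := IsWellFounded.rank_lt_of_rel h

theorem rk_le {x y : T} (h : x ≤ y) : rk x ≤ rk y := by
  rcases h.eq_or_lt with rfl | h
  · exact le_rfl
  · exact (rk_lt h).le

theorem rk_le_iff {x : T} {o : Ordinal.{0}} : rk x ≤ o ↔ ∀ y < x, rk y < o := by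
  unfold rk
  rw [IsWellFounded.rank_eq, Ordinal.iSup_le_iff]
  constructor
  · intro h y hy
    exact Order.succ_le_iff.1 (h ⟨y, hy⟩)
  · intro h y
    exact Order.succ_le_of_lt (h y.1 y.2)

theorem exists_node (y : T) : ∀ γ ≤ rk y, ∃ x ≤ y, rk x = γ := by
  induction y using WellFoundedLT.induction with
  | ind y ih =>
  intro γ hγ
  rcases hγ.eq_or_lt with h | h
  · exact ⟨y, le_rfl, h.symm⟩
  · have : ¬ rk y ≤ γ := not_le.2 h
    rw [rk_le_iff] at this
    push Not at this
    obtain ⟨z, hz, hγz⟩ := this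
    obtain ⟨x, hx, hx'⟩ := ih z hz γ hγz
    exact ⟨x, hx.trans hz.le, hx'⟩

theorem eq_of_rk (hT : IsTree T) {x y z : T} (hx : x ≤ z) (hy : y ≤ z) (h : rk x = rk y) :
    x = y := by
  rcases hT.total hx hy with h1 | h1
  · rcases h1.eq_or_lt with h2 | h2
    · exact h2
    · exact absurd h (rk_lt h2).ne
  · rcases h1.eq_or_lt with h2 | h2
    · exact h2.symm
    · exact absurd h (rk_lt h2).ne'

open Classical in
/-- the node of height `γ` below `y` -/
noncomputable def node (y : T) (γ : Ordinal.{0}) : T :=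
  if h : γ ≤ rk y then (exists_node y γ h).choose else y

theorem node_le {y : T} {γ : Ordinal.{0}} (h : γ ≤ rk y) : node y γ ≤ y := by
  rw [node, dif_pos h]
  exact (exists_node y γ h).choose_spec.1

theorem rk_node {y : T} {γ : Ordinal.{0}} (h : γ ≤ rk y) : rk (node y γ) = γ := by
  rw [node, dif_pos h]
  exact (exists_node y γ h).choose_spec.2

theorem node_eq (hT : IsTree T) {x y : T} (h : x ≤ y) : node y (rk x) = x :=
  eq_of_rk hT (node_le (rk_le h)) h (rk_node (rk_le h))

theorem node_node (hT : IsTree T) {x y : T} (h : x ≤ y) {γ : Ordinal.{0}} (hγ : γ ≤ rk x) :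
    node y γ = node x γ := by
  have h1 : node x γ ≤ y := (node_le hγ).trans h
  have := node_eq hT h1
  rw [rk_node hγ] at this
  exact this

/-- two incomparable nodes split -/
theorem exists_split (hT : IsTree T) {x y : T} (h1 : ¬ x ≤ y) (h2 : ¬ y ≤ x) :
    ∃ γ, γ ≤ rk x ∧ γ ≤ rk y ∧ node x γ ≠ node y γ ∧ ∀ β < γ, node x β = node y β := by
  have hex : {γ | γ ≤ rk x ∧ γ ≤ rk y ∧ node x γ ≠ node y γ}.Nonempty := by
    rcases le_total (rk x) (rk y) with h | h
    · refine ⟨rk x, le_rfl, h, fun h3 => h1 ?_⟩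
      rw [node_eq hT le_rfl] at h3
      rw [h3]
      exact node_le h
    · refine ⟨rk y, h, le_rfl, fun h3 => h2 ?_⟩
      rw [node_eq hT (le_refl y)] at h3
      rw [← h3]
      exact node_le h
  refine ⟨sInf _, (csInf_mem hex).1, (csInf_mem hex).2.1, (csInf_mem hex).2.2, ?_⟩
  intro β hβ
  by_contra h3
  have h4 := notMem_of_lt_csInf' hβ
  exact h4 ⟨hβ.le.trans (csInf_mem hex).1, hβ.le.trans (csInf_mem hex).2.1, h3⟩

theorem rk_lt_omega_one (y : T) (h : (Iio y).Countable) : rk y < Ordinal.omega 1 := by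
  rw [← Cardinal.ord_aleph, Cardinal.lt_ord, Cardinal.lt_aleph_one_iff]
  have hf : ∀ γ : Iio (rk y), ∃ x : Iio y, rk x.1 = γ.1 := by
    rintro ⟨γ, hγ⟩
    obtain ⟨x, hx, hx'⟩ := exists_node y γ (le_of_lt hγ)
    refine ⟨⟨x, lt_of_le_of_ne hx ?_⟩, hx'⟩
    rintro rfl
    exact absurd hx' (ne_of_gt hγ)
  choose f hf using hf
  have hinj : Function.Injective f := by
    intro a b hab
    apply Subtype.ext
    rw [← hf a, ← hf b, hab]
  have hc : Countable (Iio y) := h
  have : Countable (Iio (rk y)) := hinj.countable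
  have h2 := Cardinal.mk_le_aleph0_iff.2 this
  rw [Cardinal.mk_Iio_ordinal] at h2
  rw [← Cardinal.lift_le.{1}]
  simpa using h2

end rank

/-! ### the lexicographic order -/

theorem lex_convex {ι β : Type*} [LinearOrder ι] [WellFoundedLT ι] [LinearOrder β]
    {a b c : Lex (ι → β)} (hab : a ≤ b) (hbc : b ≤ c) {δ : ι} (h : ∀ γ ≤ δ, a γ = c γ) :
    ∀ γ ≤ δ, a γ = b γ := by
  rcases hab.eq_or_lt with rfl | hab
  · exact fun _ _ => rfl
  obtain ⟨ξ, h1, h2⟩ := hab
  have hξ : δ < ξ := by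
    by_contra hcon
    rw [not_lt] at hcon
    rcases hbc.eq_or_lt with rfl | hbc
    · exact h2.ne (h ξ hcon)
    · obtain ⟨η, h3, h4⟩ := hbc
      rcases lt_trichotomy η ξ with h5 | h5 | h5
      · have h6 := h1 η h5
        have h7 := h η (h5.le.trans hcon)
        exact h4.ne (h6.symm.trans h7)
      · subst h5
        exact (h2.trans h4).ne (h η hcon)
      · exact h2.ne ((h ξ hcon).trans (h3 ξ h5).symm)
  intro γ hγ
  exact h1 γ (hγ.trans_lt hξ)

section line

variable {T V : Type} [PartialOrder T] [WellFoundedLT T] [LinearOrder V]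

open Classical in
/-- the sequence of the labels of the nodes below `y` -/
noncomputable def sq (l : T → V) (y : T) : Lex (Ordinal.{0} → WithBot V) :=
  toLex fun γ => if γ ≤ rk y then (l (node y γ) : WithBot V) else ⊥

theorem sq_le {l : T → V} {y : T} {γ : Ordinal.{0}} (h : γ ≤ rk y) :
    sq l y γ = (l (node y γ) : WithBot V) := if_pos h

theorem sq_gt {l : T → V} {y : T} {γ : Ordinal.{0}} (h : rk y < γ) : sq l y γ = ⊥ :=
  if_neg (not_le.2 h)

/-- the labels are different on each level -/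
def LevInj (l : T → V) : Prop := ∀ x y : T, rk x = rk y → l x = l y → x = y

theorem le_of_sq (hT : IsTree T) {l : T → V} (hl : LevInj l) {x y : T}
    (h : sq l y (rk x) = sq l x (rk x)) : x ≤ y := by
  rw [sq_le (le_refl (rk x)), node_eq hT le_rfl] at h
  by_cases h1 : rk x ≤ rk y
  · rw [sq_le h1, WithBot.coe_inj] at h
    rw [← hl _ _ (rk_node h1) h]
    exact node_le h1
  · rw [sq_gt (not_le.1 h1)] at h
    exact absurd h.symm (WithBot.coe_ne_bot)

theorem sq_agree (hT : IsTree T) {l : T → V} {x y : T} (h : x ≤ y) {γ : Ordinal.{0}}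
    (hγ : γ ≤ rk x) : sq l y γ = sq l x γ := by
  rw [sq_le hγ, sq_le (hγ.trans (rk_le h)), node_node hT h hγ]

theorem sq_inj (hT : IsTree T) {l : T → V} (hl : LevInj l) : Function.Injective (sq l) := by
  intro x y h
  apply le_antisymm
  · exact le_of_sq hT hl (by rw [h])
  · exact le_of_sq hT hl (by rw [h])

theorem sq_convex (hT : IsTree T) {l : T → V} (hl : LevInj l) {w x y z : T} (hx : w ≤ x)
    (hz : w ≤ z) (h1 : sq l x ≤ sq l y) (h2 : sq l y ≤ sq l z) : w ≤ y := by
  apply le_of_sq hT hl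
  have h3 := lex_convex h1 h2 (δ := rk w) (fun γ hγ => by
    rw [sq_agree hT hx hγ, sq_agree hT hz hγ])
  rw [← h3 _ le_rfl, sq_agree hT hx le_rfl]

theorem sq_lt_of_lt (hT : IsTree T) {l : T → V} {x y : T} (h : x < y) : sq l x < sq l y := by
  have h1 : rk x < rk y := rk_lt h
  refine ⟨Order.succ (rk x), fun γ hγ => ?_, ?_⟩
  · exact (sq_agree hT h.le (Order.lt_succ_iff.1 hγ)).symm
  · show sq l x _ < sq l y _
    rw [sq_gt (Order.lt_succ _), sq_le (Order.succ_le_of_lt h1)]
    exact WithBot.bot_lt_coe _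

/-- comparison of two nodes which split at the level `γ` -/
theorem sq_lt_iff {l : T → V} {x y : T} {γ : Ordinal.{0}} (hx : γ ≤ rk x)
    (hy : γ ≤ rk y) (hb : ∀ β < γ, node x β = node y β) (hne : l (node x γ) ≠ l (node y γ)) :
    sq l x < sq l y ↔ l (node x γ) < l (node y γ) := by
  have hag : ∀ β < γ, sq l x β = sq l y β := by
    intro β hβ
    rw [sq_le (hβ.le.trans hx), sq_le (hβ.le.trans hy), hb β hβ]
  constructor
  · rintro ⟨ξ, h1, h2⟩
    rcases lt_trichotomy ξ γ with h | h | h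
    · exact absurd (hag ξ h) h2.ne
    · subst h
      have h2' : sq l x ξ < sq l y ξ := h2
      rw [sq_le hx, sq_le hy, WithBot.coe_lt_coe] at h2'
      exact h2'
    · have h1' : sq l x γ = sq l y γ := h1 γ h
      rw [sq_le hx, sq_le hy, WithBot.coe_inj] at h1'
      exact absurd h1' hne
  · intro h
    refine ⟨γ, hag, ?_⟩
    show sq l x γ < sq l y γ
    rw [sq_le hx, sq_le hy, WithBot.coe_lt_coe]
    exact h

end line

end Pool.Agent.H497
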