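import Pool.Agent.H497_Compat.WD
import Pool.Agent.H497_Compat.Tree

/-!
# Decoding a function on the countable ordinals from an embedding
-/

set_option autoImplicit false

open Set

namespace Pool.Agent.H497.Gen

open Pool.Agent.Helper330.DPK.Coh

/-- countably many points represent all restrictions to an initial segment -/
theorem exists_reps (e : Fam) (ξ : W) : ∃ R : Set W, R.Countable ∧
    ∀ z, ∃ r ∈ R, ∀ η ≤ ξ, eh e z η = eh e r η := by
  obtain ⟨b, hb⟩ := exists_gt ξ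
  let code : W → Set (Iic ξ × ℕ) := fun z => {p | eh e z p.1 ≠ eh e b p.1 ∧ p.2 = eh e z p.1}
  have hfin : ∀ z ∈ Ioi ξ, (code z).Finite := by
    intro z hz
    have h1 := (fin_ne (e := e) z b).image (fun η : W => ((η, eh e z η) : W × ℕ))
    refine Set.Finite.of_finite_image (f := fun p : Iic ξ × ℕ => ((p.1.1, p.2) : W × ℕ))
      (h1.subset ?_) ?_
    · rintro _ ⟨⟨⟨η, hη⟩, n⟩, ⟨h2, h3⟩, rfl⟩
      refine ⟨η, ⟨le_min (le_trans hη (le_of_lt hz)) (le_trans hη hb.le), h2⟩, ?_⟩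
      simp only at h3
      rw [h3]
    · rintro ⟨⟨η, hη⟩, n⟩ _ ⟨⟨η', hη'⟩, n'⟩ _ h
      simp only [Prod.mk.injEq] at h
      obtain ⟨rfl, rfl⟩ := h
      rfl
  have hagree : ∀ z ∈ Ioi ξ, ∀ z' ∈ Ioi ξ, code z = code z' → ∀ η ≤ ξ, eh e z η = eh e z' η := by
    intro z _ z' _ h η hη
    by_cases h1 : eh e z η = eh e b η
    · by_contra h2
      have h3 : ((⟨η, hη⟩, eh e z' η) : Iic ξ × ℕ) ∈ code z' := ⟨fun h4 => h2 (h1.trans h4.symm), rfl⟩
      rw [← h] at h3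
      exact h3.1 h1
    · have h3 : ((⟨η, hη⟩, eh e z η) : Iic ξ × ℕ) ∈ code z := ⟨h1, rfl⟩
      rw [h] at h3
      exact h3.2
  have hcount : (code '' Ioi ξ).Countable := by
    have h0 : Countable (Iic ξ) := countable_Iic ξ
    refine (Set.countable_ofPred_finite_subset (s := (univ : Set (Iic ξ × ℕ)))
      (countable_univ)).mono ?_
    rintro _ ⟨z, hz, rfl⟩
    exact ⟨hfin z hz, subset_univ _⟩
  obtain ⟨s, hs, hbij⟩ := Set.exists_subset_bijOn (Ioi ξ) code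
  refine ⟨Iic ξ ∪ s, (countable_Iic ξ).union ?_, ?_⟩
  · refine countable_of_injective_of_countable_image hbij.injOn ?_
    rw [hbij.image_eq]
    exact hcount
  · intro z
    rcases le_or_gt z ξ with h | h
    · exact ⟨z, Or.inl h, fun _ _ => rfl⟩
    · obtain ⟨r, hr, hrz⟩ := hbij.surjOn ⟨z, h, rfl⟩
      exact ⟨r, Or.inr hr, fun η hη => (hagree r (hs hr) z h hrz η hη).symm⟩

section short

variable {L : Type} [LinearOrder L]

/-- a countable cofinal subset -/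
theorem exists_cof (hs : ∀ s : Set L, s.WellFoundedOn (· < ·) → s.Countable) {ℓ : W → L}
    (hℓ : Function.Injective ℓ) (Z : Set W) :
    ∃ A ⊆ Z, A.Countable ∧ ∀ z ∈ Z, ∃ a ∈ A, ℓ z ≤ ℓ a := by
  refine ⟨{z ∈ Z | ∀ z' ∈ Z, z' < z → ℓ z' < ℓ z}, fun z hz => hz.1, ?_, ?_⟩
  · refine countable_of_injective_of_countable_image hℓ.injOn (hs _ ?_)
    rw [wellFoundedOn_image]
    have h1 : ({z ∈ Z | ∀ z' ∈ Z, z' < z → ℓ z' < ℓ z} : Set W).WellFoundedOn (· < ·) :=
      (wellFounded_lt (α := W)).wellFoundedOn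
    refine h1.mono' ?_
    intro a ha b hb hab
    rcases lt_trichotomy a b with h | h | h
    · exact h
    · subst h; exact absurd hab (lt_irrefl _)
    · exact absurd (ha.2 b hb.1 h) (lt_asymm hab)
  · intro z hz
    have hne : {y | y ∈ Z ∧ ℓ z ≤ ℓ y}.Nonempty := ⟨z, hz, le_rfl⟩
    refine ⟨(wellFounded_lt (α := W)).min _ hne, ⟨((wellFounded_lt (α := W)).min_mem _ hne).1, ?_⟩,
      ((wellFounded_lt (α := W)).min_mem _ hne).2⟩
    intro z' hz' hlt
    have h1 := (wellFounded_lt (α := W)).not_lt_min {y | y ∈ Z ∧ ℓ z ≤ ℓ y} (x := z')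
    have h2 : ¬ ℓ z ≤ ℓ z' := fun h => h1 ⟨hz', h⟩ hlt
    exact (not_le.1 h2).trans_le ((wellFounded_lt (α := W)).min_mem _ hne).2

theorem exists_coi (hs : ∀ s : Set L, s.WellFoundedOn (· > ·) → s.Countable) {ℓ : W → L}
    (hℓ : Function.Injective ℓ) (Z : Set W) :
    ∃ A ⊆ Z, A.Countable ∧ ∀ z ∈ Z, ∃ a ∈ A, ℓ a ≤ ℓ z :=
  exists_cof (L := Lᵒᵈ) hs (ℓ := fun x => OrderDual.toDual (ℓ x)) hℓ Z

/-- The cut of the point `δ` determines the restriction of its image to `δ`. -/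
theorem exists_decode (e : Fam) (hs : ∀ s : Set L, s.WellFoundedOn (· < ·) → s.Countable)
    (hs' : ∀ s : Set L, s.WellFoundedOn (· > ·) → s.Countable) {ℓ : W → L}
    (hℓ : Function.Injective ℓ) {k : W → W} (hk : Function.Injective k) :
    ∃ E : Set W, IsClub E ∧ ∀ δ ∈ E, δ ≤ k δ ∧ ∀ ξ < δ, ∃ x y, x < δ ∧ y < δ ∧ ℓ x < ℓ δ ∧
      ℓ δ < ℓ y ∧ (∀ η ≤ ξ, eh e (k x) η = eh e (k δ) η) ∧
      ∀ η ≤ ξ, eh e (k y) η = eh e (k δ) η := by
  choose R hR hRz using exists_reps e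
  choose A hAs hA hAc using exists_cof hs hℓ
  choose B hBs hB hBc using exists_coi hs' hℓ
  let Z : W → W → Set W := fun ξ r => {z | ∀ η ≤ ξ, eh e (k z) η = eh e r η}
  obtain ⟨E, hE, hcl⟩ := exists_club
    (fun ξ => (⋃ r ∈ R ξ, (A (Z ξ r) ∪ B (Z ξ r))) ∪ {z | k z = ξ}) (fun ξ => by
      refine ((hR ξ).biUnion fun r _ => (hA _).union (hB _)).union ?_
      apply Set.Subsingleton.countable
      intro x hx y hy
      exact hk (hx.trans hy.symm))
  refine ⟨E, hE, fun δ hδ => ⟨?_, fun ξ hξ => ?_⟩⟩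
  · by_contra h
    rw [not_le] at h
    exact lt_irrefl _ (hcl δ hδ (k δ) h δ (Or.inr rfl))
  · obtain ⟨r, hr, hrz⟩ := hRz ξ (k δ)
    have hZ : δ ∈ Z ξ r := hrz
    obtain ⟨y, hy, hyl⟩ := hAc _ δ hZ
    obtain ⟨x, hx, hxl⟩ := hBc _ δ hZ
    have hx1 : x < δ := hcl δ hδ ξ hξ x (Or.inl (mem_biUnion hr (Or.inr hx)))
    have hy1 : y < δ := hcl δ hδ ξ hξ y (Or.inl (mem_biUnion hr (Or.inl hy)))
    refine ⟨x, y, hx1, hy1, lt_of_le_of_ne hxl fun h => hx1.ne (hℓ h),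
      lt_of_le_of_ne hyl fun h => hy1.ne (hℓ h).symm, ?_, ?_⟩
    · intro η hη
      rw [hBs _ hx η hη, hZ η hη]
    · intro η hη
      rw [hAs _ hy η hη, hZ η hη]

end short

/-- the restriction of a point between two points -/
theorem sandwich {e : Fam} {a b c ξ : W} (h : (pt e a < pt e b ∧ pt e b < pt e c) ∨
    (pt e c < pt e b ∧ pt e b < pt e a)) (h' : ∀ η ≤ ξ, eh e a η = eh e c η) :
    ∀ η ≤ ξ, eh e a η = eh e b η := by
  rcases h with ⟨h1, h2⟩ | ⟨h1, h2⟩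
  · exact lex_convex (a := pt e a) (b := pt e b) (c := pt e c) h1.le h2.le h'
  · intro η hη
    have := lex_convex (a := pt e c) (b := pt e b) (c := pt e a) h1.le h2.le
      (fun γ hγ => (h' γ hγ).symm) η hη
    exact (h' η hη).trans this

/-! ### Codes of points -/

theorem exists_enc (a : W) : ∃ f : W → ℕ, InjOn f (Iio a) :=
  countable_iff_exists_injOn.1 (countable_Iio a)

/-- an enumeration of the predecessors of `a` -/
noncomputable def enc (a : W) : W → ℕ := (exists_enc a).choose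

theorem enc_inj (a : W) : InjOn (enc a) (Iio a) := (exists_enc a).choose_spec

open Classical in
/-- the function coded by an ordinal and a sequence -/
noncomputable def dcd (p : W × (ℕ → ℕ)) (η : W) : ℕ := if η < p.1 then p.2 (enc p.1 η) else 0

theorem exists_code (e : Fam) (a : W) : ∃ c : ℕ → ℕ, ∀ η, dcd (a, c) η = eh e a η := by
  classical
  refine ⟨fun n => if h : ∃ η, η < a ∧ enc a η = n then eh e a h.choose else 0, fun η => ?_⟩
  unfold dcd
  by_cases hη : η < a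
  · rw [if_pos hη]
    have h : ∃ η', η' < a ∧ enc a η' = enc a η := ⟨η, hη, rfl⟩
    simp only [dif_pos h]
    rw [enc_inj a h.choose_spec.1 hη h.choose_spec.2]
  · rw [if_neg hη, eh_ge (not_lt.1 hη)]

end Pool.Agent.H497.Gen
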