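import Mathlib

/-!
# Definitions: Aronszajn lines, Suslin lines, Countryman lines, compatibility, trees
-/

set_option autoImplicit false

open Set

namespace Pool.Agent.H497

/-! ### Lines -/

/-- The linear order `L` is separable: in the order topology it has a countable dense subset. -/
def IsSep (L : Type) [LinearOrder L] : Prop :=
  @TopologicalSpace.SeparableSpace L (Preorder.topology L)

/-- `L` is a Suslin line: it is not separable, and every family of pairwise disjoint nonempty open
intervals of `L` is countable. -/
def IsSuslinLine (L : Type) [LinearOrder L] : Prop :=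
  ¬ IsSep L ∧ ∀ F : Set (Set L), (∀ I ∈ F, I.Nonempty ∧ ∃ a b : L, I = Ioo a b) →
    F.PairwiseDisjoint id → F.Countable

/-- `L` is an Aronszajn line: it is uncountable, and its suborders which are well-ordered,
conversely well-ordered or separable are countable. -/
def IsAronszajnLine (L : Type) [LinearOrder L] : Prop :=
  Uncountable L ∧ (∀ s : Set L, s.WellFoundedOn (· < ·) → s.Countable) ∧
    (∀ s : Set L, s.WellFoundedOn (· > ·) → s.Countable) ∧ ∀ s : Set L, IsSep s → s.Countable

/-- `L` is an Aronszajn line which contains no Suslin line (as a suborder). -/
def Good (L : Type) [LinearOrder L] : Prop :=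
  IsAronszajnLine L ∧ ∀ s : Set L, ¬ IsSuslinLine s

/-- `L` and `M` are compatible: they have uncountable suborders which are isomorphic or
anti-isomorphic. -/
def Compatible (L M : Type) [LinearOrder L] [LinearOrder M] : Prop :=
  ∃ (s : Set L) (t : Set M), ¬ s.Countable ∧ ¬ t.Countable ∧
    (Nonempty (s ≃o t) ∨ Nonempty (sᵒᵈ ≃o t))

/-- Every two Aronszajn lines, each containing no Suslin line, are compatible. -/
def AllCompatible : Prop :=
  ∀ (L M : Type) [LinearOrder L] [LinearOrder M], Good L → Good M → Compatible L M

/-- `C` is a Countryman line: it is uncountable and its square, with the componentwise order, is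
the union of countably many chains. -/
def Countryman (C : Type) [LinearOrder C] : Prop :=
  Uncountable C ∧ ∃ K : ℕ → Set (C × C), (⋃ n, K n) = univ ∧ ∀ n, IsChain (· ≤ ·) (K n)

/-! ### Trees -/

/-- The partial order `T` is a tree: the predecessors of each element are well-ordered. -/
def IsTree (T : Type) [PartialOrder T] : Prop :=
  ∀ t : T, IsWellOrder (Iio t) (· < ·)

/-- The tree `T` has height `ω₁`: each element has countably many predecessors, and for every
countable ordinal `α` there is an element whose predecessors contain a set of order type `α`. -/
def HeightOmegaOne (T : Type) [PartialOrder T] : Prop :=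
  (∀ t : T, (Iio t).Countable) ∧
    ∀ α : Ordinal.{0}, α < Ordinal.omega 1 → ∃ t : T, Nonempty (α.ToType ↪o Iio t)

/-- `T` is a Suslin tree: a tree of height `ω₁` with no uncountable chain and no uncountable
antichain. -/
def IsSuslinTree (T : Type) [PartialOrder T] : Prop :=
  IsTree T ∧ HeightOmegaOne T ∧ (∀ s : Set T, IsChain (· ≤ ·) s → s.Countable) ∧
    ∀ s : Set T, IsAntichain (· ≤ ·) s → s.Countable

/-- `f` is a level preserving strictly increasing map: it maps the set of the predecessors of `r`
isomorphically onto the set of the predecessors of `f r`. -/
def IsTreeHom {R T : Type} [PartialOrder R] [PartialOrder T] (f : R → T) : Prop :=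
  StrictMono f ∧ ∀ r, ∀ t < f r, ∃ r' < r, f r' = t

end Pool.Agent.H497
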