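import Pool.Agent.H497_Compat.Dec

/-!
# A Countryman line into which few short orders embed
-/

set_option autoImplicit false

open Set

namespace Pool.Agent.H497.Gen

open Pool.Agent.Helper330.DPK.Coh

/-- the linear order `L` has no uncountable well-ordered or conversely well-ordered suborder -/
def Short (L : Type) [LinearOrder L] : Prop :=
  (∀ s : Set L, s.WellFoundedOn (· < ·) → s.Countable) ∧
    ∀ s : Set L, s.WellFoundedOn (· > ·) → s.Countable

section rule

variable {I : Type} {B : I → Type} [∀ i, LinearOrder (B i)]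

/-- the set of the points of the ladder where the value is not found to be odd -/
def bad (ℓ : ∀ i, W → B i) (δ : W) (h : W → I × (W × (ℕ → ℕ))) : Set W :=
  {ξ | ξ ∈ lad δ ∧ ¬ ∃ x y, x < δ ∧ y < δ ∧ ℓ (h x).1 x < ℓ (h x).1 δ ∧ ℓ (h x).1 δ < ℓ (h x).1 y ∧
    (∀ η ≤ ξ, dcd (h x).2 η = dcd (h y).2 η) ∧ dcd (h x).2 ξ % 2 = 1}

theorem bad_congr (ℓ : ∀ i, W → B i) (δ : W) (h h' : W → I × (W × (ℕ → ℕ)))
    (hh : ∀ x < δ, h x = h' x) : bad ℓ δ h = bad ℓ δ h' := by
  ext ξ
  unfold bad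
  simp only [mem_ofPred_eq]
  constructor
  · rintro ⟨h1, h2⟩
    refine ⟨h1, ?_⟩
    rintro ⟨x, y, hx, hy, h3, h4, h5, h6⟩
    apply h2
    rw [← hh x hx] at h3 h4 h5 h6
    rw [← hh y hy] at h5
    exact ⟨x, y, hx, hy, h3, h4, h5, h6⟩
  · rintro ⟨h1, h2⟩
    refine ⟨h1, ?_⟩
    rintro ⟨x, y, hx, hy, h3, h4, h5, h6⟩
    apply h2
    rw [hh x hx] at h3 h4 h5 h6
    rw [hh y hy] at h5
    exact ⟨x, y, hx, hy, h3, h4, h5, h6⟩

end rule

theorem isClub_Ioi' (b : W) : IsClub (Ioi b) := by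
  constructor
  · intro d hd hne _ a ha
    obtain ⟨x, hx⟩ := hne
    exact lt_of_lt_of_le (hd hx) (ha.1 hx)
  · intro a
    obtain ⟨c, hc⟩ := exists_gt (max a b)
    exact ⟨c, (le_max_right a b).trans_lt hc, ((le_max_left a b).trans_lt hc).le⟩

theorem mk_W : Cardinal.mk W = Cardinal.aleph 1 := by
  rw [Cardinal.mk_toType, Cardinal.card_ord]

theorem emb_W {K : Type} (h : Cardinal.aleph 1 ≤ Cardinal.mk K) : Nonempty (W ↪ K) := by
  rw [← Cardinal.le_def, mk_W]
  exact h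

theorem no_embed (h2 : (2 : Cardinal.{0}) ^ Cardinal.aleph0.{0} < 2 ^ Cardinal.aleph 1)
    {I : Type} (hI : Cardinal.mk I ≤ 2 ^ Cardinal.aleph0.{0}) (B : I → Type)
    [∀ i, LinearOrder (B i)] (hunc : ∀ i, Uncountable (B i)) (hshort : ∀ i, Short (B i)) :
    ∃ e : Fam, ∀ (i : I) (f : B i → CLine e), ¬ StrictMono f ∧ ¬ StrictAnti f := by
  classical
  -- injections
  have hℓ : ∀ i, ∃ ℓ : W → B i, Function.Injective ℓ := by
    intro i
    have h1 : Cardinal.aleph 1 ≤ Cardinal.mk (B i) := by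
      have := hunc i
      rw [← not_countable_iff, ← Cardinal.mk_le_aleph0_iff, not_le] at this
      rw [← Cardinal.succ_aleph0]
      exact Order.succ_le_of_lt this
    obtain ⟨f⟩ := emb_W h1
    exact ⟨f, f.injective⟩
  choose ℓ hℓ using hℓ
  -- the weak diamond
  have hB : Cardinal.mk (ℕ → Bool) = 2 ^ Cardinal.aleph0.{0} := by simp
  have ha : Nonempty (W ↪ (ℕ → Bool)) := by
    apply emb_W
    rw [hB, ← Cardinal.succ_aleph0]
    exact Order.succ_le_of_lt (Cardinal.cantor _)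
  obtain ⟨a⟩ := ha
  have hv : Nonempty (I × (W × (ℕ → ℕ)) ↪ (ℕ → Bool)) := by
    rw [← Cardinal.le_def, hB, Cardinal.mk_prod, Cardinal.mk_prod, Cardinal.lift_id,
      Cardinal.lift_id, Cardinal.lift_id, Cardinal.lift_id, mk_W]
    have h3 : Cardinal.mk (ℕ → ℕ) = 2 ^ Cardinal.aleph0.{0} := by
      rw [Cardinal.mk_arrow]
      simp
    have h4 : Cardinal.aleph0.{0} ≤ 2 ^ Cardinal.aleph0.{0} := (Cardinal.cantor _).le
    have h5 : Cardinal.aleph 1 ≤ (2 : Cardinal.{0}) ^ Cardinal.aleph0.{0} := by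
      rw [← Cardinal.succ_aleph0]
      exact Order.succ_le_of_lt (Cardinal.cantor _)
    rw [h3]
    calc Cardinal.mk I * (Cardinal.aleph 1 * 2 ^ Cardinal.aleph0.{0})
        ≤ 2 ^ Cardinal.aleph0.{0} * (2 ^ Cardinal.aleph0.{0} * 2 ^ Cardinal.aleph0.{0}) :=
          mul_le_mul' hI (mul_le_mul' h5 le_rfl)
      _ = 2 ^ Cardinal.aleph0.{0} := by rw [Cardinal.mul_eq_self h4, Cardinal.mul_eq_self h4]
  obtain ⟨v⟩ := hv
  have hbig : IsEmpty ((W → Bool) ↪ (ℕ → Bool)) := by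
    refine ⟨fun f => ?_⟩
    have h3 := Cardinal.mk_le_of_injective f.injective
    rw [hB] at h3
    have h4 : Cardinal.mk (W → Bool) = 2 ^ Cardinal.aleph 1 := by
      rw [Cardinal.mk_arrow, mk_W]
      simp
    rw [h4] at h3
    exact absurd h2 (not_lt.2 h3)
  have he0 : ∀ δ : W, Nonempty ({β : W // β < δ} ↪ ℕ) := by
    intro δ
    have : Countable {β : W // β < δ} := countable_Iio δ
    exact ⟨⟨_, (exists_injective_nat _).choose_spec⟩⟩
  obtain ⟨g, hg⟩ := Pool.Agent.Y128.WD.weak_diamond (K := ℕ) cof_W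
    (fun f hf => IsClub.iInter_of_countable cof_W.ne' hf) (fun δ => (he0 δ).some) a v hbig
    (fun δ h => decide ((bad ℓ δ h).Finite)) (by
      intro δ h h' hh
      rw [bad_congr ℓ δ h h' hh])
  refine ⟨fam g, ?_⟩
  have key : ∀ (i : I) (f : B i → CLine (fam g)), StrictMono f ∨ StrictAnti f → False := by
    intro i f hf
    have hk : ∀ x : W, ∃ α : W, pt (fam g) α = (f (ℓ i x)).1 := fun x => (f (ℓ i x)).2
    choose k hk using hk
    have hfinj : Function.Injective f := hf.elim StrictMono.injective StrictAnti.injective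
    have hkinj : Function.Injective k := by
      intro x y hxy
      apply hℓ i
      apply hfinj
      apply Subtype.ext
      rw [← hk x, ← hk y, hxy]
    obtain ⟨E, hE, hdec⟩ := exists_decode (fam g) (hshort i).1 (hshort i).2 (hℓ i) hkinj
    have hc : ∀ x : W, ∃ c : ℕ → ℕ, ∀ η, dcd (k x, c) η = eh (fam g) (k x) η := fun x =>
      exists_code (fam g) (k x)
    choose c hc using hc
    choose s hs using fun x : W => exists_gt x
    obtain ⟨δ, ⟨⟨hδE, hδs⟩, hδb⟩, hne⟩ := hg (fun x => (i, (k x, c x))) ((E ∩ {δ | ∀ β < δ, s β < δ}) ∩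
      Ioi (Classical.arbitrary W)) ((hE.inter cof_W.ne' (isClub_clos s)).inter cof_W.ne'
        (isClub_Ioi' _))
    apply hne
    obtain ⟨hδk, hcut⟩ := hdec δ hδE
    -- the order of the images
    have hord : ∀ x y : W, ℓ i x < ℓ i δ → ℓ i δ < ℓ i y →
        (pt (fam g) (k x) < pt (fam g) (k δ) ∧ pt (fam g) (k δ) < pt (fam g) (k y)) ∨
        (pt (fam g) (k y) < pt (fam g) (k δ) ∧ pt (fam g) (k δ) < pt (fam g) (k x)) := by
      intro x y h3 h4
      rw [hk, hk, hk]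
      rcases hf with hf | hf
      · left; exact ⟨hf h3, hf h4⟩
      · right; exact ⟨hf h4, hf h3⟩
    have hbad : bad ℓ δ (fun x => (i, (k x, c x))) =
        {ξ | ξ ∈ lad δ ∧ ¬ eh (fam g) (k δ) ξ % 2 = 1} := by
      ext ξ
      unfold bad
      simp only [mem_ofPred_eq, hc]
      refine and_congr_right fun hξ => not_congr ?_
      constructor
      · rintro ⟨x, y, -, -, h3, h4, h5, h6⟩
        rw [← sandwich (hord x y h3 h4) h5 ξ le_rfl]
        exact h6
      · intro h3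
        obtain ⟨x, y, hx, hy, h4, h5, h6, h7⟩ := hcut ξ (lad_lt hξ)
        refine ⟨x, y, hx, hy, h4, h5, fun η hη => (h6 η hη).trans (h7 η hη).symm, ?_⟩
        rw [h6 ξ le_rfl]
        exact h3
    have hcoh : {ξ | ξ < δ ∧ ξ < k δ ∧ (fam g).f δ ξ ≠ (fam g).f (k δ) ξ}.Finite :=
      (fam g).coh δ (k δ)
    have hval : ∀ ξ ∈ lad δ, ξ ∉ {ξ | ξ < δ ∧ ξ < k δ ∧ (fam g).f δ ξ ≠ (fam g).f (k δ) ξ} →
        (eh (fam g) (k δ) ξ % 2 = 1 ↔ g δ = true) := by
      intro ξ hξ hn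
      have h3 : ξ < k δ := (lad_lt hξ).trans_le hδk
      have h4 : (fam g).f δ ξ = (fam g).f (k δ) ξ := by
        by_contra h5
        exact hn ⟨lad_lt hξ, h3, h5⟩
      rw [eh_lt h3, ← h4]
      exact fam_par g δ ξ hξ
    show decide ((bad ℓ δ (fun x => (i, (k x, c x)))).Finite) = g δ
    rw [hbad]
    cases hgδ : g δ
    · rw [decide_eq_false_iff_not]
      intro hfin
      have hinf : (lad δ).Infinite := by
        apply lad_inf
        · exact ⟨Classical.arbitrary W, hδb⟩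
        · intro b hb
          exact ⟨s b, hs b, hδs b hb⟩
      apply hinf
      apply (hfin.union hcoh).subset
      intro ξ hξ
      by_cases h3 : ξ ∈ {ξ | ξ < δ ∧ ξ < k δ ∧ (fam g).f δ ξ ≠ (fam g).f (k δ) ξ}
      · right; exact h3
      · left
        refine ⟨hξ, ?_⟩
        rw [hval ξ hξ h3, hgδ]
        simp
    · rw [decide_eq_true_iff]
      apply hcoh.subset
      rintro ξ ⟨hξ, h3⟩
      by_contra h4
      apply h3
      rw [hval ξ hξ h4]
      exact hgδ
  exact fun i f => ⟨fun h => key i f (Or.inl h), fun h => key i f (Or.inr h)⟩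

end Pool.Agent.H497.Gen
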