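import Pool.Agent.H497_Compat.Proj

/-!
# Products of trees, and Suslin trees
-/

set_option autoImplicit false

open Set

namespace Pool.Agent.H497

/-- The levels of the tree `T` are countable: for each element `t`, there are only countably many
elements whose sets of predecessors have the same order type as the set of predecessors of `t`. -/
def CountableLevels (T : Type) [PartialOrder T] : Prop :=
  ∀ t : T, {x : T | Nonempty (Iio x ≃o Iio t)}.Countable

section levels

variable {T : Type} [PartialOrder T] [WellFoundedLT T]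

theorem exists_iso_rk (hT : IsTree T) (x : T) : Nonempty (Iio x ≃o Iio (rk x)) := by
  have hsm : StrictMono (fun y : Iio x => (⟨rk y.1, rk_lt y.2⟩ : Iio (rk x))) := by
    intro y z hyz
    exact Subtype.mk_lt_mk.2 (rk_lt hyz)
  have hlin : ∀ a b : Iio x, a ≤ b ∨ b ≤ a := fun a b =>
    hT.total (le_of_lt a.2) (le_of_lt b.2)
  have hiff : ∀ a b : Iio x, rk a.1 ≤ rk b.1 ↔ a ≤ b := by
    intro a b
    constructor
    · intro h
      rcases hlin a b with h1 | h1
      · exact h1
      · rcases h1.eq_or_lt with h2 | h2
        · exact h2.ge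
        · exact absurd (rk_lt (show b.1 < a.1 from h2)) (not_lt.2 h)
    · intro h
      exact rk_le h
  have hsurj : Function.Surjective (fun y : Iio x => (⟨rk y.1, rk_lt y.2⟩ : Iio (rk x))) := by
    rintro ⟨γ, hγ⟩
    have h1 : γ ≤ rk x := le_of_lt hγ
    refine ⟨⟨node x γ, lt_of_le_of_ne (node_le h1) fun h => ?_⟩, ?_⟩
    · have h2 := rk_node h1
      rw [h] at h2
      exact (ne_of_gt hγ) h2
    · exact Subtype.ext (rk_node h1)
  refine ⟨{ toEquiv := Equiv.ofBijective _ ⟨?_, hsurj⟩, map_rel_iff' := ?_ }⟩
  · intro a b hab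
    have h1 : rk a.1 = rk b.1 := congrArg Subtype.val hab
    exact le_antisymm ((hiff a b).1 h1.le) ((hiff b a).1 h1.ge)
  · intro a b
    exact hiff a b

theorem CountableLevels.rk (hT : IsTree T) (h : CountableLevels T) (γ : Ordinal.{0}) :
    {x : T | rk x = γ}.Countable := by
  by_cases hne : {x : T | H497.rk x = γ}.Nonempty
  · obtain ⟨t, ht⟩ := hne
    refine (h t).mono fun x hx => ?_
    obtain ⟨e⟩ := exists_iso_rk hT x
    obtain ⟨f⟩ := exists_iso_rk hT t
    have h1 : H497.rk x = H497.rk t := by
      rw [show H497.rk x = γ from hx, show H497.rk t = γ from ht]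
    refine ⟨e.trans ?_⟩
    rw [h1]
    exact f.symm
  · rw [not_nonempty_iff_eq_empty] at hne
    rw [hne]
    exact countable_empty

theorem suslin_levels (h : ∀ s : Set T, IsAntichain (· ≤ ·) s → s.Countable) (γ : Ordinal.{0}) :
    {x : T | rk x = γ}.Countable := by
  apply h
  intro x hx y hy hne hxy
  have h1 := rk_lt (lt_of_le_of_ne hxy hne)
  rw [show rk x = γ from hx, show rk y = γ from hy] at h1
  exact lt_irrefl _ h1

/-- an uncountable lower set which is mapped injectively into a Suslin tree is a Suslin tree -/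
theorem suslin_sub {R S : Type} [PartialOrder R] [WellFoundedLT R] [PartialOrder S]
    [WellFoundedLT S] (hR : IsTree R) (hS : IsTree S)
    (hch : ∀ s : Set R, IsChain (· ≤ ·) s → s.Countable)
    (hanti : ∀ s : Set S, IsAntichain (· ≤ ·) s → s.Countable) {p : R → S} (hp : IsTreeHom p)
    {R' : Set R} (hlow : IsLowerSet R') (hunc : ¬ R'.Countable) (hinj : InjOn p R') :
    IsSuslinTree R' := by
  refine suslin_of hR hch hlow ?_ ?_
  · intro α hα
    by_contra hcon
    push Not at hcon
    apply hunc
    have h1 := countable_below (suslin_levels hanti) hα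
    refine MapsTo.countable_of_injOn (f := p) (t := {x : S | rk x < α}) ?_ hinj h1
    intro x hx
    show rk (p x) < α
    rw [rk_hom hp]
    exact hcon x hx
  · intro s hs hsa
    refine countable_of_injective_of_countable_image (f := p) (hinj.mono hs) (hanti _ ?_)
    rintro _ ⟨x, hx, rfl⟩ _ ⟨y, hy, rfl⟩ hne hle
    have h1 : rk x ≤ rk y := by
      rw [← rk_hom hp x, ← rk_hom hp y]
      exact rk_le hle
    have h2 : p (node y (rk x)) = p x := by
      rw [hom_node hS hp h1, ← rk_hom hp x, node_eq hS hle]
    have h3 : node y (rk x) = x :=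
      hinj (hlow (node_le h1) (hs hy)) (hs hx) h2
    have h4 : x ≤ y := by
      rw [← h3]
      exact node_le h1
    exact hsa hx hy (fun h => hne (by rw [h])) h4

end levels

end Pool.Agent.H497
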