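import Pool.Agent.H497_Compat.Tree

/-!
# Lines with convex cones over a tree without Suslin subtrees
-/

set_option autoImplicit false

open Set

namespace Pool.Agent.H497

section sub

variable {R : Type} [PartialOrder R] [WellFoundedLT R]

theorem countable_Iio_of_chain (hT : IsTree R) (hch : ∀ s : Set R, IsChain (· ≤ ·) s → s.Countable)
    (t : R) : (Iio t).Countable := by
  apply hch
  intro x hx y hy _
  exact hT.total (le_of_lt hx) (le_of_lt hy)

/-- a criterion for a lower set to be a Suslin tree -/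
theorem suslin_of (hT : IsTree R) (hch : ∀ s : Set R, IsChain (· ≤ ·) s → s.Countable)
    {R' : Set R} (hlow : IsLowerSet R') (hunb : ∀ α < Ordinal.omega.{0} 1, ∃ t ∈ R', α ≤ rk t)
    (hanti : ∀ s ⊆ R', IsAntichain (· ≤ ·) s → s.Countable) : IsSuslinTree R' := by
  have hIio := countable_Iio_of_chain hT hch
  refine ⟨?_, ⟨?_, ?_⟩, ?_, ?_⟩
  · intro t
    have := hT t.1
    let f : ((· < ·) : Iio t → Iio t → Prop) ↪r ((· < ·) : Iio t.1 → Iio t.1 → Prop) :=
      { toFun := fun x => ⟨x.1.1, x.2⟩
        inj' := fun x y h => Subtype.ext (Subtype.ext (congrArg (fun z : Iio t.1 => (z : R)) h))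
        map_rel_iff' := by intro a b; rfl }
    exact f.isWellOrder
  · intro t
    have : (Subtype.val '' (Iio t) : Set R) ⊆ Iio t.1 := by
      rintro _ ⟨x, hx, rfl⟩
      exact hx
    exact countable_of_injective_of_countable_image Subtype.val_injective.injOn
      ((hIio t.1).mono this)
  · intro α hα
    obtain ⟨t, ht, hαt⟩ := hunb α hα
    have hlt : ∀ x : α.ToType, ((Ordinal.ToType.mk (o := α)).symm x : Ordinal) < rk t := fun x =>
      lt_of_lt_of_le ((Ordinal.ToType.mk (o := α)).symm x).2 hαt
    have hnl : ∀ x : α.ToType, node t ((Ordinal.ToType.mk (o := α)).symm x : Ordinal) < t := by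
      intro x
      refine lt_of_le_of_ne (node_le (hlt x).le) fun h => ?_
      have := rk_node (hlt x).le
      rw [h] at this
      exact (hlt x).ne' this
    refine ⟨⟨t, ht⟩, ⟨OrderEmbedding.ofStrictMono
      (fun x => ⟨⟨node t ((Ordinal.ToType.mk (o := α)).symm x : Ordinal), hlow (hnl x).le ht⟩,
        hnl x⟩) ?_⟩⟩
    intro x y hxy
    show node t _ < node t _
    have h1 : ((Ordinal.ToType.mk (o := α)).symm x : Ordinal) <
        ((Ordinal.ToType.mk (o := α)).symm y : Ordinal) :=
      (Ordinal.ToType.mk (o := α)).symm.strictMono hxy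
    rcases hT.total (node_le (hlt x).le) (node_le (hlt y).le) with h | h
    · refine lt_of_le_of_ne h fun h2 => ?_
      have h3 := rk_node (hlt x).le
      rw [h2, rk_node (hlt y).le] at h3
      exact h1.ne' h3
    · have h3 := rk_le h
      rw [rk_node (hlt x).le, rk_node (hlt y).le] at h3
      exact absurd h1 (not_lt.2 h3)
  · intro s hs
    refine countable_of_injective_of_countable_image (f := Subtype.val)
      Subtype.val_injective.injOn (hch _ ?_)
    rintro _ ⟨x, hx, rfl⟩ _ ⟨y, hy, rfl⟩ hne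
    rcases hs hx hy (fun h => hne (by rw [h])) with h | h
    · left; exact h
    · right; exact h
  · intro s hs
    refine countable_of_injective_of_countable_image (f := Subtype.val)
      Subtype.val_injective.injOn (hanti _ ?_ ?_)
    · rintro _ ⟨x, -, rfl⟩
      exact x.2
    · rintro _ ⟨x, hx, rfl⟩ _ ⟨y, hy, rfl⟩ hne h
      exact hs hx hy (fun h => hne (by rw [h])) h

/-- countably many levels contain countably many nodes -/
theorem countable_below (hlev : ∀ γ : Ordinal.{0}, {x : R | rk x = γ}.Countable)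
    {α : Ordinal.{0}} (hα : α < Ordinal.omega 1) : {x : R | rk x < α}.Countable := by
  have h1 : (Iio α).Countable := by
    rw [← Cardinal.ord_aleph, Cardinal.lt_ord, Cardinal.lt_aleph_one_iff] at hα
    rw [← Cardinal.le_aleph0_iff_set_countable, Cardinal.mk_Iio_ordinal]
    rw [← Cardinal.lift_le_aleph0.{0, 1}] at hα
    exact hα
  have : {x : R | rk x < α} = ⋃ γ ∈ Iio α, {x : R | rk x = γ} := by
    ext x
    simp
  rw [this]
  exact h1.biUnion fun γ _ => hlev γ

/-- a countable set of nodes is bounded in height -/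
theorem exists_bound (hrk : ∀ x : R, rk x < Ordinal.omega 1) {D : Set R} (hD : D.Countable) :
    ∃ α < Ordinal.omega.{0} 1, ∀ x ∈ D, rk x < α := by
  have : Countable D := hD
  refine ⟨⨆ x : D, Order.succ (rk x.1), ?_, ?_⟩
  · apply Ordinal.iSup_lt_of_lt_cof
    · have h1 : (Ordinal.omega.{0} 1).cof = Cardinal.aleph 1 := by
        rw [← Cardinal.ord_aleph]
        exact (Cardinal.isRegular_aleph_one).cof_ord
      rw [h1]
      exact lt_of_le_of_lt (Cardinal.mk_le_aleph0_iff.2 this) Cardinal.aleph0_lt_aleph_one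
    · intro x
      rw [← Cardinal.ord_aleph]
      apply (Cardinal.isSuccLimit_ord (Cardinal.aleph0_le_aleph 1)).succ_lt
      rw [Cardinal.ord_aleph]
      exact hrk x.1
  · intro x hx
    exact (Order.lt_succ _).trans_le
      (Ordinal.le_iSup (fun x : D => Order.succ (rk x.1)) ⟨x, hx⟩)

/-- the nodes above one of the nodes of level `α` -/
theorem cover_cones (hlev : ∀ γ : Ordinal.{0}, {x : R | rk x = γ}.Countable)
    {α : Ordinal.{0}} (hα : α < Ordinal.omega 1) {s : Set R}
    (h : ∀ x : R, rk x = α → (s ∩ Ici x).Countable) : s.Countable := by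
  have h1 : s ⊆ {x : R | rk x < α} ∪ ⋃ x ∈ {x : R | rk x = α}, (s ∩ Ici x) := by
    intro y hy
    rcases lt_or_ge (rk y) α with h2 | h2
    · left; exact h2
    · right
      exact mem_biUnion (show node y α ∈ {x : R | rk x = α} from rk_node h2) ⟨hy, node_le h2⟩
  exact ((countable_below hlev hα).union ((hlev α).biUnion fun x hx => h x hx)).mono h1

end sub

/-- two incomparable nodes have disjoint cones -/
theorem cone_disj {R : Type} [PartialOrder R] (hT : IsTree R) {x y z : R} (hx : x ≤ z)
    (hy : y ≤ z) (h : IsAntichain (· ≤ ·) ({x, y} : Set R)) : x = y := by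
  by_contra hne
  rcases hT.total hx hy with h1 | h1
  · exact h (by simp) (by simp) hne h1
  · exact h (by simp) (by simp) (Ne.symm hne) h1

/-- The main lemma: a line with convex cones over a tree without Suslin subtrees is an Aronszajn
line which contains no Suslin line. -/
theorem wf_of_convex {L R : Type} [LinearOrder L] [PartialOrder R] [WellFoundedLT R]
    (hT : IsTree R) (hlev : ∀ γ : Ordinal.{0}, {x : R | rk x = γ}.Countable)
    (hch : ∀ s : Set R, IsChain (· ≤ ·) s → s.Countable) (e : L ≃ R)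
    (hconv : ∀ w : R, (e ⁻¹' (Ici w)).OrdConnected) (s : Set L)
    (hs : s.WellFoundedOn (· < ·)) : s.Countable := by
  by_contra hc
  obtain ⟨t, -, htc, hini⟩ := exists_init hc hs
  have hrk : ∀ x : R, rk x < Ordinal.omega 1 := fun x =>
    rk_lt_omega_one x (countable_Iio_of_chain hT hch x)
  have himg : ∀ u : Set L, (e '' u).Countable → u.Countable := fun u hu =>
    countable_of_injective_of_countable_image e.injective.injOn hu
  -- nodes with uncountable cones
  have hB : IsChain (· ≤ ·) {x : R | ¬ (t ∩ e ⁻¹' (Ici x)).Countable} := by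
    intro x hx x' hx' hne
    by_contra hcon
    push Not at hcon
    have hdis : ∀ z, x ≤ z → x' ≤ z → False := by
      intro z h1 h2
      rcases hT.total h1 h2 with h3 | h3
      · exact hcon.1 h3
      · exact hcon.2 h3
    have hbig : ∀ w : R, ¬ (t ∩ e ⁻¹' (Ici w)).Countable → ∀ y ∈ t,
        ∃ y' ∈ t ∩ e ⁻¹' (Ici w), y < y' := by
      intro w hw y hy
      by_contra h1
      push Not at h1
      apply hw
      apply (hini y hy).mono
      intro z hz
      exact ⟨hz.1, h1 z hz⟩
    have hne1 : (t ∩ e ⁻¹' (Ici x)).Nonempty := by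
      by_contra h
      rw [not_nonempty_iff_eq_empty] at h
      exact hx (by rw [h]; exact countable_empty)
    obtain ⟨y, hy⟩ := hne1
    obtain ⟨y', hy', h1⟩ := hbig x' hx' y hy.1
    obtain ⟨y'', hy'', h2⟩ := hbig x hx y' hy'.1
    have h3 : y' ∈ e ⁻¹' (Ici x) := (hconv x).out hy.2 hy''.2 ⟨h1.le, h2.le⟩
    exact hdis (e y') h3 hy'.2
  have hBc := hch _ hB
  obtain ⟨α, hα, hbd⟩ := exists_bound hrk hBc
  apply htc
  apply himg
  apply cover_cones hlev hα
  intro x hx
  by_contra h
  have hxB : x ∈ {x : R | ¬ (t ∩ e ⁻¹' (Ici x)).Countable} := by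
    intro h1
    apply h
    have : e '' t ∩ Ici x = e '' (t ∩ e ⁻¹' (Ici x)) := by
      rw [image_inter_preimage]
    rw [this]
    exact h1.image _
  exact (hbd x hxB).ne hx

theorem good_of_convex {L R : Type} [LinearOrder L] [PartialOrder R] [WellFoundedLT R]
    (hT : IsTree R) (hlev : ∀ γ : Ordinal.{0}, {x : R | rk x = γ}.Countable)
    (hch : ∀ s : Set R, IsChain (· ≤ ·) s → s.Countable)
    (hns : ∀ R' : Set R, IsLowerSet R' → ¬ IsSuslinTree R') (hunc : Uncountable R)
    (e : L ≃ R) (hconv : ∀ w : R, (e ⁻¹' (Ici w)).OrdConnected) : Good L := by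
  have hrk : ∀ x : R, rk x < Ordinal.omega 1 := fun x =>
    rk_lt_omega_one x (countable_Iio_of_chain hT hch x)
  have himg : ∀ u : Set L, (e '' u).Countable → u.Countable := fun u hu =>
    countable_of_injective_of_countable_image e.injective.injOn hu
  have hcone : ∀ (s : Set L) (x : R), e '' s ∩ Ici x = e '' (s ∩ e ⁻¹' (Ici x)) := by
    intro s x
    rw [image_inter_preimage]
  refine ⟨⟨?_, ?_, ?_, ?_⟩, ?_⟩
  · exact e.symm.injective.uncountable
  · exact wf_of_convex hT hlev hch e hconv
  · intro s hs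
    refine wf_of_convex (L := Lᵒᵈ) hT hlev hch e (fun w => ?_) s hs
    exact ⟨fun x hx y hy z hz => (hconv w).out hy hx ⟨hz.2, hz.1⟩⟩
  · -- separable suborders
    intro s hs
    let _ : TopologicalSpace s := Preorder.topology s
    have _ : OrderTopology s := ⟨rfl⟩
    have hsep : TopologicalSpace.SeparableSpace s := hs
    obtain ⟨D, hD, hdense⟩ := hsep.exists_countable_dense
    obtain ⟨α, hα, hbd⟩ := exists_bound hrk (D := (fun x : s => e x.1) '' D) (hD.image _)
    apply himg
    apply cover_cones hlev hα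
    intro x hx
    rw [hcone]
    apply Set.Countable.image
    by_contra hc
    obtain ⟨a, ha, b, hb, c, hc', hab, hbc⟩ := exists_three hc
    have hopen : IsOpen (Ioo (⟨a, ha.1⟩ : s) ⟨c, hc'.1⟩) := isOpen_Ioo
    obtain ⟨d, hd1, hd2⟩ := hdense.inter_open_nonempty _ hopen ⟨⟨b, hb.1⟩, hab, hbc⟩
    have h1 : (d : L) ∈ e ⁻¹' (Ici x) := (hconv x).out ha.2 hc'.2 ⟨hd1.1.le, hd1.2.le⟩
    have h2 := hbd (e d.1) ⟨d, hd2, rfl⟩
    have h3 := rk_le (show x ≤ e d.1 from h1)
    rw [hx] at h3
    exact absurd h2 (not_lt.2 h3)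
  · -- Suslin suborders
    rintro s ⟨hs1, hs2⟩
    have hsu : ¬ s.Countable := by
      intro hc
      exact hs1 (isSep_of_countable hc)
    refine hns {x : R | ¬ (s ∩ e ⁻¹' (Ici x)).Countable} ?_ (suslin_of hT hch ?_ ?_ ?_)
    · intro x y hyx hx hc
      apply hx
      apply hc.mono
      rintro z ⟨h1, h2⟩
      exact ⟨h1, le_trans hyx h2⟩
    · intro x y hyx hx hc
      apply hx
      apply hc.mono
      rintro z ⟨h1, h2⟩
      exact ⟨h1, le_trans hyx h2⟩
    · intro α hα
      by_contra hcon
      push Not at hcon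
      apply hsu
      apply himg
      apply cover_cones hlev hα
      intro x hx
      rw [hcone]
      apply Set.Countable.image
      by_contra hc
      exact (hcon x hc).ne hx
    · intro A hA hanti
      have hthree : ∀ x ∈ A, ∃ a ∈ s ∩ e ⁻¹' (Ici x), ∃ b ∈ s ∩ e ⁻¹' (Ici x),
          ∃ c ∈ s ∩ e ⁻¹' (Ici x), a < b ∧ b < c := fun x hx => exists_three (hA hx)
      have : Nonempty L := by
        have : Infinite R := inferInstance
        exact ⟨e.symm (Classical.arbitrary R)⟩
      choose! a ha b hb c hc hab hbc using hthree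
      have hsub : ∀ x ∈ A, ∀ z : s, a x < z → z < c x → x ≤ e z.1 := by
        intro x hx z h1 h2
        exact (hconv x).out (ha x hx).2 (hc x hx).2 ⟨h1.le, h2.le⟩
      let I : R → Set s := fun x => {z : s | a x < z ∧ (z : L) < c x}
      have hIne : ∀ x ∈ A, (I x).Nonempty := fun x hx => ⟨⟨b x, (hb x hx).1⟩, hab x hx, hbc x hx⟩
      have hIdisj : ∀ x ∈ A, ∀ y ∈ A, x ≠ y → Disjoint (I x) (I y) := by
        intro x hx y hy hne
        rw [disjoint_left]
        rintro z ⟨h1, h2⟩ ⟨h3, h4⟩
        have h5 := hsub x hx z h1 h2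
        have h6 := hsub y hy z h3 h4
        rcases hT.total h5 h6 with h7 | h7
        · exact hanti hx hy hne h7
        · exact hanti hy hx (Ne.symm hne) h7
      refine countable_of_injective_of_countable_image (f := I) ?_ (hs2 (I '' A) ?_ ?_)
      · intro x hx y hy hxy
        by_contra hne
        have := hIdisj x hx y hy hne
        rw [hxy, disjoint_self] at this
        exact (hIne y hy).ne_empty this
      · rintro _ ⟨x, hx, rfl⟩
        refine ⟨hIne x hx, ⟨a x, (ha x hx).1⟩, ⟨c x, (hc x hx).1⟩, ?_⟩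
        ext z
        rfl
      · rintro _ ⟨x, hx, rfl⟩ _ ⟨y, hy, rfl⟩ hne
        exact hIdisj x hx y hy fun h => hne (by rw [h])

theorem good_of_convex' {L R : Type} [LinearOrder L] [PartialOrder R] [WellFoundedLT R]
    (hT : IsTree R) (hlev : ∀ γ : Ordinal.{0}, {x : R | rk x = γ}.Countable)
    (hch : ∀ s : Set R, IsChain (· ≤ ·) s → s.Countable)
    (hns : ∀ R' : Set R, IsLowerSet R' → ¬ IsSuslinTree R') (hunc : Uncountable R)
    (e : L ≃ R) (hconv : ∀ (w : R) (x y z : L), w ≤ e x → w ≤ e z → x ≤ y → y ≤ z → w ≤ e y) :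
    Good L :=
  good_of_convex hT hlev hch hns hunc e fun w =>
    ⟨fun x hx z hz y hy => hconv w x y z hx hz hy.1 hy.2⟩

end Pool.Agent.H497
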