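import Pool.Agent.H497_Compat.Ramsey
import Pool.Agent.H497_Compat.TreeLine

/-!
# The projection theorem
-/

set_option autoImplicit false

open Set

namespace Pool.Agent.H497

theorem rk_hom {R T : Type} [PartialOrder R] [PartialOrder T] [WellFoundedLT R] [WellFoundedLT T]
    {f : R → T} (hf : IsTreeHom f) (r : R) : rk (f r) = rk r := by
  induction r using WellFoundedLT.induction with
  | ind r ih =>
  apply le_antisymm
  · rw [rk_le_iff]
    intro t ht
    obtain ⟨r', hr', rfl⟩ := hf.2 r t ht
    rw [ih r' hr']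
    exact rk_lt hr'
  · rw [rk_le_iff]
    intro r' hr'
    rw [← ih r' hr']
    exact rk_lt (hf.1 hr')

theorem hom_node {R T : Type} [PartialOrder R] [PartialOrder T] [WellFoundedLT R]
    [WellFoundedLT T] (hT : IsTree T) {f : R → T} (hf : IsTreeHom f) {x : R} {γ : Ordinal.{0}}
    (h : γ ≤ rk x) : f (node x γ) = node (f x) γ := by
  have h1 : γ ≤ rk (f x) := by rw [rk_hom hf]; exact h
  refine eq_of_rk hT (hf.1.monotone (node_le h)) (node_le h1) ?_
  rw [rk_hom hf, rk_node h, rk_node h1]

theorem exists_lab {T : Type} [PartialOrder T] [WellFoundedLT T]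
    (hlev : ∀ γ : Ordinal.{0}, {x : T | rk x = γ}.Countable) :
    ∃ c : T → ℕ, ∀ x y, rk x = rk y → c x = c y → x = y := by
  have h : ∀ γ : Ordinal.{0}, ∃ f : T → ℕ, InjOn f {x : T | rk x = γ} := fun γ =>
    countable_iff_exists_injOn.1 (hlev γ)
  choose F hF using h
  refine ⟨fun x => F (rk x) x, fun x y h1 h2 => ?_⟩
  simp only [h1] at h2
  exact hF (rk y) h1 rfl h2

section fin

variable {n : ℕ}

theorem lex_fin {a b : Fin n → ℤ} {i : Fin n} (h1 : ∀ j < i, a j = b j) (h2 : a i ≠ b i) :
    toLex a < toLex b ↔ a i < b i := by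
  constructor
  · rintro ⟨j, h3, h4⟩
    rcases lt_trichotomy j i with h | h | h
    · exact absurd (h1 j h) h4.ne
    · subst h; exact h4
    · exact absurd (h3 i h) h2
  · intro h
    exact ⟨i, h1, h⟩

/-- the signs -/
def eps (k : Option (Fin n)) (i : Fin n) : ℤ := if k = some i then -1 else 1

theorem eps_ne (k : Option (Fin n)) (i : Fin n) : eps k i ≠ 0 := by
  unfold eps
  split_ifs <;> simp

theorem eps_mul_ne {k : Option (Fin n)} {i : Fin n} {a b : ℤ} (h : a ≠ b) :
    eps k i * a ≠ eps k i * b := fun h1 => h (mul_left_cancel₀ (eps_ne k i) h1)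

variable {R : Type} {T : Fin n → Type}

/-- the label of a node -/
def lab (c : ∀ i, T i → ℕ) (p : ∀ i, R → T i) (k : Option (Fin n)) (x : R) : Lex (Fin n → ℤ) :=
  toLex fun i => eps k i * (c i (p i x) : ℤ)

theorem lab_lt {c : ∀ i, T i → ℕ} {p : ∀ i, R → T i} {k : Option (Fin n)} {x y : R} {i : Fin n}
    (h1 : ∀ j < i, c j (p j x) = c j (p j y)) (h2 : c i (p i x) ≠ c i (p i y)) :
    lab c p k x < lab c p k y ↔
      eps k i * (c i (p i x) : ℤ) < eps k i * (c i (p i y) : ℤ) := by
  apply lex_fin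
  · intro j hj
    simp only [h1 j hj]
  · exact eps_mul_ne (by exact_mod_cast h2)

theorem lab_ne {c : ∀ i, T i → ℕ} {p : ∀ i, R → T i} {k : Option (Fin n)} {x y : R} {i : Fin n}
    (h2 : c i (p i x) ≠ c i (p i y)) : lab c p k x ≠ lab c p k y := by
  intro h
  exact eps_mul_ne (k := k) (i := i) (show (c i (p i x) : ℤ) ≠ c i (p i y) by exact_mod_cast h2)
    (congrFun h i)

end fin

section proj

variable {n : ℕ} {R : Type} [pR : PartialOrder R] [wR : WellFoundedLT R] {T : Fin n → Type}
  [∀ i, PartialOrder (T i)] [∀ i, WellFoundedLT (T i)]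

theorem lab_levInj {c : ∀ i, T i → ℕ} (hc : ∀ i x y, rk x = rk y → c i x = c i y → x = y)
    {p : ∀ i, R → T i} (hp : ∀ i, IsTreeHom (p i)) (hinj : ∀ x y, (∀ i, p i x = p i y) → x = y)
    (k : Option (Fin n)) : LevInj (lab c p k) := by
  intro x y h1 h2
  apply hinj
  intro i
  apply hc i
  · rw [rk_hom (hp i), rk_hom (hp i), h1]
  · by_contra h3
    exact lab_ne h3 h2

theorem levels_countable (hlev : ∀ i, ∀ γ : Ordinal.{0}, {x : T i | rk x = γ}.Countable)
    {p : ∀ i, R → T i} (hp : ∀ i, IsTreeHom (p i)) (hinj : ∀ x y, (∀ i, p i x = p i y) → x = y)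
    (γ : Ordinal.{0}) : {x : R | rk x = γ}.Countable := by
  refine MapsTo.countable_of_injOn (f := fun x => fun i => p i x)
    (t := Set.pi univ fun i => {t : T i | rk t = γ}) ?_ ?_
    (countable_univ_pi fun i => hlev i γ)
  · intro x hx i _
    show rk (p i x) = γ
    rw [rk_hom (hp i)]
    exact hx
  · intro x _ y _ h
    exact hinj x y fun i => congrFun h i

/-- The projection theorem. -/
theorem projection (hR : RamseyForm) (hT : IsTree R)
    (hch : ∀ s : Set R, IsChain (· ≤ ·) s → s.Countable) (hunc : Uncountable R)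
    (hns : ∀ R' : Set R, IsLowerSet R' → ¬ IsSuslinTree R')
    (hTi : ∀ i, IsTree (T i)) (hlev : ∀ i, ∀ γ : Ordinal.{0}, {x : T i | rk x = γ}.Countable)
    (p : ∀ i, R → T i) (hp : ∀ i, IsTreeHom (p i))
    (hinj : ∀ x y, (∀ i, p i x = p i y) → x = y) :
    ∃ i, ∃ R' : Set R, IsLowerSet R' ∧ ¬ R'.Countable ∧ InjOn (p i) R' := by
  classical
  have hc : ∀ i, ∃ c : T i → ℕ, ∀ x y, rk x = rk y → c x = c y → x = y := fun i =>
    exists_lab (hlev i)
  choose c hc using hc
  have hlevR := levels_countable hlev hp hinj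
  let ord : Option (Fin n) → LinearOrder R := fun k =>
    LinearOrder.lift' (sq (lab c p k)) (sq_inj hT (lab_levInj hc hp hinj k))
  have hle : ∀ k x y, (ord k).le x y ↔ sq (lab c p k) x ≤ sq (lab c p k) y := fun k x y => Iff.rfl
  have hlt : ∀ k x y, (ord k).lt x y ↔ sq (lab c p k) x < sq (lab c p k) y := fun k x y => Iff.rfl
  have hgood : ∀ k, @Good R (ord k) := by
    intro k
    refine @good_of_convex' R R (ord k) pR wR hT hlevR hch hns hunc (Equiv.refl R) ?_
    intro w x y z hx hz hxy hyz
    exact sq_convex hT (lab_levInj hc hp hinj k) hx hz ((hle k x y).1 hxy) ((hle k y z).1 hyz)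
  obtain ⟨Z, hZ, hmono⟩ := @hR n R (ord none) (fun _ => R) (fun i => ord (some i)) (hgood none)
    (fun i => hgood (some i)) (fun _ => id) (fun _ => Function.injective_id)
  -- comparison of incomparable nodes
  have key : ∀ x y : R, ¬ x ≤ y → ¬ y ≤ x → ∃ i : Fin n, ∃ γ : Ordinal.{0}, γ ≤ rk x ∧ γ ≤ rk y ∧
      (∀ β < γ, node x β = node y β) ∧ p i (node x γ) ≠ p i (node y γ) ∧
      (∀ k, k ≠ some i → ((ord k).lt x y ↔ (ord none).lt x y)) ∧
      ((ord (some i)).lt x y ↔ (ord none).lt y x) := by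
    intro x y h1 h2
    obtain ⟨γ, hx, hy, hne, hb⟩ := exists_split hT h1 h2
    have hex : {i : Fin n | p i (node x γ) ≠ p i (node y γ)}.Nonempty := by
      by_contra h3
      rw [not_nonempty_iff_eq_empty] at h3
      apply hne
      apply hinj
      intro i
      by_contra h4
      have : i ∈ {i : Fin n | p i (node x γ) ≠ p i (node y γ)} := h4
      rw [h3] at this
      exact this
    obtain ⟨i, hi, hmin⟩ : ∃ i : Fin n, p i (node x γ) ≠ p i (node y γ) ∧
        ∀ j < i, p j (node x γ) = p j (node y γ) := by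
      refine ⟨(wellFounded_lt (α := Fin n)).min _ hex,
        (wellFounded_lt (α := Fin n)).min_mem _ hex, fun j hj => ?_⟩
      by_contra h4
      exact (wellFounded_lt (α := Fin n)).not_lt_min
        {i : Fin n | p i (node x γ) ≠ p i (node y γ)} (x := j) h4 hj
    have hci : c i (p i (node x γ)) ≠ c i (p i (node y γ)) := by
      intro h3
      apply hi
      apply hc i _ _ _ h3
      rw [rk_hom (hp i), rk_hom (hp i), rk_node hx, rk_node hy]
    have hcj : ∀ j < i, c j (p j (node x γ)) = c j (p j (node y γ)) := by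
      intro j hj
      rw [hmin j hj]
    have hcomp : ∀ k, (ord k).lt x y ↔
        eps k i * (c i (p i (node x γ)) : ℤ) < eps k i * (c i (p i (node y γ)) : ℤ) := by
      intro k
      exact ((hlt k x y).trans (sq_lt_iff hx hy hb (lab_ne hci))).trans
        (lab_lt (k := k) (x := node x γ) (y := node y γ) hcj hci)
    have hcomp' : ∀ k, (ord k).lt y x ↔
        eps k i * (c i (p i (node y γ)) : ℤ) < eps k i * (c i (p i (node x γ)) : ℤ) := by
      intro k
      exact ((hlt k y x).trans (sq_lt_iff hy hx (fun β hβ => (hb β hβ).symm)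
        (lab_ne hci.symm))).trans (lab_lt (k := k) (x := node y γ) (y := node x γ)
          (fun j hj => (hcj j hj).symm) hci.symm)
    refine ⟨i, γ, hx, hy, hb, hi, ?_, ?_⟩
    · intro k hk
      rw [hcomp, hcomp]
      have h5 : eps k i = 1 := if_neg hk
      have h6 : eps (none : Option (Fin n)) i = 1 := if_neg (by simp)
      rw [h5, h6]
    · rw [hcomp, hcomp']
      have h5 : eps (some i) i = -1 := if_pos rfl
      have h6 : eps (none : Option (Fin n)) i = 1 := if_neg (by simp)
      rw [h5, h6]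
      constructor <;> intro h7 <;> linarith
  -- some coordinate is reversed
  have hrev : ∃ i, @StrictAntiOn R R (ord none).toPartialOrder.toPreorder
      (ord (some i)).toPartialOrder.toPreorder id Z := by
    by_contra hcon
    push Not at hcon
    have hall : ∀ i, @StrictMonoOn R R (ord none).toPartialOrder.toPreorder
      (ord (some i)).toPartialOrder.toPreorder id Z := fun i =>
        (hmono i).resolve_right (hcon i)
    apply hZ
    apply hch
    intro x hx y hy hxy
    by_contra h1
    push Not at h1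
    obtain ⟨i, γ, -, -, -, -, -, h2⟩ := key x y h1.1 h1.2
    rcases @lt_trichotomy R (ord none) x y with h3 | h3 | h3
    · have h4 : (ord (some i)).lt x y := hall i hx hy h3
      exact @lt_asymm R (ord none).toPartialOrder.toPreorder x y h3 (h2.1 h4)
    · exact hxy h3
    · have h4 : (ord (some i)).lt y x := hall i hy hx h3
      exact @lt_asymm R (ord (some i)).toPartialOrder.toPreorder y x h4 (h2.2 h3)
  obtain ⟨i, hi⟩ := hrev
  -- all pairs of Z split in the coordinate i
  have hsplit : ∀ x ∈ Z, ∀ y ∈ Z, x ≠ y → ∃ γ : Ordinal.{0}, γ ≤ rk x ∧ γ ≤ rk y ∧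
      (∀ β < γ, node x β = node y β) ∧ p i (node x γ) ≠ p i (node y γ) := by
    intro x hx y hy hxy
    have hinc : ∀ u ∈ Z, ∀ v ∈ Z, u < v → False := by
      intro u hu v hv huv
      have h1 : (ord none).lt u v := (hlt none u v).2 (sq_lt_of_lt hT huv)
      have h2 : (ord (some i)).lt u v := (hlt (some i) u v).2 (sq_lt_of_lt hT huv)
      have h3 : (ord (some i)).lt v u := hi hu hv h1
      exact @lt_asymm R (ord (some i)).toPartialOrder.toPreorder u v h2 h3
    have h1 : ¬ x ≤ y := fun h => hinc x hx y hy (lt_of_le_of_ne h hxy)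
    have h2 : ¬ y ≤ x := fun h => hinc y hy x hx (lt_of_le_of_ne h hxy.symm)
    obtain ⟨j, γ, hγ1, hγ2, hb, hne, h3, -⟩ := key x y h1 h2
    by_cases hij : i = j
    · subst hij
      exact ⟨γ, hγ1, hγ2, hb, hne⟩
    · exfalso
      have h4 := h3 (some i) (by simpa using hij)
      rcases @lt_trichotomy R (ord none) x y with h5 | h5 | h5
      · have h6 : (ord (some i)).lt y x := hi hx hy h5
        exact @lt_asymm R (ord (some i)).toPartialOrder.toPreorder y x h6 (h4.2 h5)
      · exact hxy h5
      · have h6 : (ord (some i)).lt x y := hi hy hx h5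
        exact @lt_asymm R (ord none).toPartialOrder.toPreorder y x h5 (h4.1 h6)
  refine ⟨i, {x | ∃ z ∈ Z, x ≤ z}, ?_, ?_, ?_⟩
  · rintro x y hyx ⟨z, hz, hxz⟩
    exact ⟨z, hz, hyx.trans hxz⟩
  · intro hcount
    apply hZ
    exact hcount.mono (fun z hz => (⟨z, hz, le_rfl⟩ : ∃ w ∈ Z, z ≤ w))
  · rintro x ⟨z, hz, hxz⟩ y ⟨w, hw, hyw⟩ hxy
    have hrk : rk x = rk y := by
      rw [← rk_hom (hp i) x, ← rk_hom (hp i) y, hxy]
    by_cases hzw : z = w
    · subst hzw
      exact eq_of_rk hT hxz hyw hrk
    · by_contra hne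
      obtain ⟨γ, h1, h2, hb, h3⟩ := hsplit z hz w hw hzw
      have h4 : γ ≤ rk x := by
        by_contra h5
        rw [not_le] at h5
        apply hne
        have h6 := hb (rk x) h5
        rw [node_eq hT hxz, hrk, node_eq hT hyw] at h6
        exact h6
      apply h3
      rw [node_node hT hxz h4, node_node hT hyw (h4.trans hrk.le), hom_node (hTi i) (hp i) h4,
        hom_node (hTi i) (hp i) (h4.trans hrk.le), hxy]

end proj

end Pool.Agent.H497
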