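import Pool.Agent.H497_Compat.Sub

/-!
# The Ramsey form of compatibility
-/

set_option autoImplicit false

open Set

namespace Pool.Agent.H497

theorem Countryman.uncountable {C : Type} [LinearOrder C] (h : Countryman C) : Uncountable C := h.1

/-- every injection from a good line to `C` is monotone or antitone on an uncountable set -/
def Target (C : Type) [LinearOrder C] : Prop :=
  ∀ (L : Type) [LinearOrder L], Good L → ∀ f : L → C, Function.Injective f → MonoSome f

theorem target_of_all (h : AllCompatible) {C : Type} [LinearOrder C] (hC : Countryman C) :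
    Target C := by
  intro L _ hL f hf
  exact monoSome_of_compat hC (h L C hL hC.good) f hf

theorem mono_image {L M : Type} [LinearOrder L] [LinearOrder M] {s : Set L} {f : L → M}
    (h : MonoSome fun x : s => f x) :
    ∃ Z ⊆ s, ¬ Z.Countable ∧ (StrictMonoOn f Z ∨ StrictAntiOn f Z) := by
  obtain ⟨Z, hZ, h⟩ := h
  refine ⟨Subtype.val '' Z, ?_, ?_, ?_⟩
  · rintro _ ⟨x, -, rfl⟩
    exact x.2
  · intro hc
    exact hZ (countable_of_injective_of_countable_image Subtype.val_injective.injOn hc)
  · rcases h with h | h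
    · left
      rintro _ ⟨x, hx, rfl⟩ _ ⟨y, hy, rfl⟩ hxy
      exact h hx hy hxy
    · right
      rintro _ ⟨x, hx, rfl⟩ _ ⟨y, hy, rfl⟩ hxy
      exact h hx hy hxy

/-- one target Countryman line suffices -/
theorem monoSome_of_target {C : Type} [LinearOrder C] (hC : Countryman C) (hT : Target C)
    {L M : Type} [LinearOrder L] [LinearOrder M] (hL : Good L) (hM : Good M) (f : L → M)
    (hf : Function.Injective f) : MonoSome f := by
  classical
  -- a set of size aleph one
  obtain ⟨s, hs, hs1⟩ := exists_aleph_one hL.1.1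
  have hfs : ¬ (f '' s).Countable := fun hc =>
    hs (countable_of_injective_of_countable_image hf.injOn hc)
  obtain ⟨g, hg⟩ := exists_inj hs1 hC.uncountable
  -- the injection of the image
  obtain ⟨h, hh⟩ : ∃ h : M → C, ∀ x : s, h (f x) = g x := by
    have hne : Nonempty C := by
      have := hC.uncountable
      have : Infinite C := inferInstance
      infer_instance
    refine ⟨fun y => if hy : ∃ x : s, f x = y then g hy.choose else Classical.arbitrary C, ?_⟩
    intro x
    have hy : ∃ x' : s, f x' = f x := ⟨x, rfl⟩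
    simp only [dif_pos hy]
    congr 1
    exact Subtype.ext (hf hy.choose_spec)
  have hinj : InjOn h (f '' s) := by
    rintro _ ⟨x, hx, rfl⟩ _ ⟨y, hy, rfl⟩ hxy
    rw [hh ⟨x, hx⟩, hh ⟨y, hy⟩] at hxy
    exact congrArg f (congrArg Subtype.val (hg hxy))
  obtain ⟨Z, hZs, hZ, hmono⟩ := mono_image (s := s) (f := fun x => h (f x))
    (hT s (hL.sub hs) (fun x => h (f x)) (fun x y hxy => by
      simp only [hh] at hxy
      exact hg hxy))
  have hfZ : ¬ (f '' Z).Countable := fun hc =>
    hZ (countable_of_injective_of_countable_image hf.injOn hc)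
  obtain ⟨Y, hYs, hY, hmono'⟩ := mono_image (s := f '' Z) (f := h)
    (hT (f '' Z : Set M) (hM.sub hfZ) (fun x => h x) (fun x y hxy => by
      exact Subtype.ext (hinj ((image_mono hZs) x.2) ((image_mono hZs) y.2) hxy)))
  refine ⟨Z ∩ f ⁻¹' Y, ?_, ?_⟩
  · intro hc
    apply hY
    apply (hc.image f).mono
    intro y hy
    obtain ⟨x, hx, rfl⟩ := hYs hy
    exact ⟨x, ⟨hx, hy⟩, rfl⟩
  · rcases hmono with h1 | h1 <;> rcases hmono' with h2 | h2
    · left
      intro x hx y hy hxy
      by_contra h3
      rcases (not_lt.1 h3).eq_or_lt with h4 | h4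
      · exact hxy.ne (hf h4).symm
      · exact lt_asymm (h1 hx.1 hy.1 hxy) (h2 hy.2 hx.2 h4)
    · right
      intro x hx y hy hxy
      by_contra h3
      rcases (not_lt.1 h3).eq_or_lt with h4 | h4
      · exact hxy.ne (hf h4)
      · exact lt_asymm (h1 hx.1 hy.1 hxy) (h2 hx.2 hy.2 h4)
    · right
      intro x hx y hy hxy
      by_contra h3
      rcases (not_lt.1 h3).eq_or_lt with h4 | h4
      · exact hxy.ne (hf h4)
      · exact lt_asymm (h1 hx.1 hy.1 hxy) (h2 hx.2 hy.2 h4)
    · left
      intro x hx y hy hxy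
      by_contra h3
      rcases (not_lt.1 h3).eq_or_lt with h4 | h4
      · exact hxy.ne (hf h4).symm
      · exact lt_asymm (h1 hx.1 hy.1 hxy) (h2 hy.2 hx.2 h4)

theorem all_of_monoSome (h : ∀ (L M : Type) [LinearOrder L] [LinearOrder M], Good L → Good M →
    ∀ f : L → M, Function.Injective f → MonoSome f) : AllCompatible := by
  intro L M _ _ hL hM
  obtain ⟨s, hs, hs1⟩ := exists_aleph_one hL.1.1
  obtain ⟨g, hg⟩ := exists_inj hs1 hM.1.1
  obtain ⟨u, v, hu, hv, huv⟩ := compat_of_monoSome g (h s M (hL.sub hs) hM g hg)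
  refine ⟨Subtype.val '' u, v, fun hc => hu ?_, hv, ?_⟩
  · exact countable_of_injective_of_countable_image Subtype.val_injective.injOn hc
  · rcases huv with ⟨⟨e⟩⟩ | ⟨⟨e⟩⟩
    · exact Or.inl ⟨(imIso u).symm.trans e⟩
    · exact Or.inr ⟨(imIso u).dual.symm.trans e⟩

/-- finitely many injections at once -/
theorem multi (h : ∀ (L M : Type) [LinearOrder L] [LinearOrder M], Good L → Good M →
    ∀ f : L → M, Function.Injective f → MonoSome f) (n : ℕ) :
    ∀ (L : Type) [LinearOrder L] (M : Fin n → Type) [∀ i, LinearOrder (M i)], Good L →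
      (∀ i, Good (M i)) → ∀ f : ∀ i, L → M i, (∀ i, Function.Injective (f i)) →
      ∃ Z : Set L, ¬ Z.Countable ∧ ∀ i, StrictMonoOn (f i) Z ∨ StrictAntiOn (f i) Z := by
  induction n with
  | zero =>
    intro L _ M _ hL _ f _
    refine ⟨univ, ?_, fun i => i.elim0⟩
    rw [countable_univ_iff]
    exact not_countable_iff.2 hL.1.1
  | succ n ih =>
    intro L _ M _ hL hM f hf
    obtain ⟨Z, hZ, hmono⟩ := ih L (fun i => M i.castSucc) hL (fun i => hM _)
      (fun i => f i.castSucc) (fun i => hf _)
    obtain ⟨Y, hYZ, hY, hmono'⟩ := mono_image (s := Z) (f := f (Fin.last n))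
      (h Z (M (Fin.last n)) (hL.sub hZ) (hM _) (fun x => f _ x) fun x y hxy =>
        Subtype.ext (hf _ hxy))
    refine ⟨Y, hY, fun i => ?_⟩
    induction i using Fin.lastCases with
    | last => exact hmono'
    | cast i =>
      rcases hmono i with h1 | h1
      · left; exact h1.mono hYZ
      · right; exact h1.mono hYZ

/-- the Ramsey form for finitely many injections -/
def RamseyForm : Prop :=
  ∀ (n : ℕ) (L : Type) [LinearOrder L] (M : Fin n → Type) [∀ i, LinearOrder (M i)], Good L →
    (∀ i, Good (M i)) → ∀ f : ∀ i, L → M i, (∀ i, Function.Injective (f i)) →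
      ∃ Z : Set L, ¬ Z.Countable ∧ ∀ i, StrictMonoOn (f i) Z ∨ StrictAntiOn (f i) Z

theorem tfae : List.TFAE [AllCompatible,
    ∀ (C : Type) [LinearOrder C], Countryman C → Target C,
    ∃ (C : Type) (_ : LinearOrder C), Countryman C ∧ Target C,
    RamseyForm] := by
  tfae_have 1 → 2 := fun h C _ hC => target_of_all h hC
  tfae_have 2 → 3 := by
    intro h
    obtain ⟨C, o, hC⟩ := exists_countryman
    exact ⟨C, o, hC, h C hC⟩
  tfae_have 3 → 4 := by
    rintro ⟨C, o, hC, hT⟩ n
    exact multi (fun L M _ _ hL hM f hf => monoSome_of_target hC hT hL hM f hf) n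
  tfae_have 4 → 1 := by
    intro h
    apply all_of_monoSome
    intro L M _ _ hL hM f hf
    obtain ⟨Z, hZ, h2⟩ := h 1 L (fun _ => M) hL (fun _ => hM) (fun _ => f) (fun _ => hf)
    exact ⟨Z, hZ, h2 0⟩
  tfae_finish

end Pool.Agent.H497
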