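import Pool.Agent.H497_Compat.CExist

/-!
# Suborders, isomorphisms, and monotone restrictions of injections
-/

set_option autoImplicit false

open Set

namespace Pool.Agent.H497

theorem IsSep.congr {L M : Type} [LinearOrder L] [LinearOrder M] (e : L ≃o M) (h : IsSep L) :
    IsSep M := by
  let _ : TopologicalSpace L := Preorder.topology L
  have _ : OrderTopology L := ⟨rfl⟩
  let _ : TopologicalSpace M := Preorder.topology M
  have _ : OrderTopology M := ⟨rfl⟩
  have _ : TopologicalSpace.SeparableSpace L := h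
  exact (e.surjective.denseRange).separableSpace e.continuous

theorem IsSuslinLine.congr {L M : Type} [LinearOrder L] [LinearOrder M] (e : L ≃o M)
    (h : IsSuslinLine L) : IsSuslinLine M := by
  refine ⟨fun hM => h.1 (hM.congr e.symm), fun F hF hd => ?_⟩
  have h1 := h.2 ((fun I => e ⁻¹' I) '' F) ?_ ?_
  · refine countable_of_injective_of_countable_image (f := fun I => e ⁻¹' I) ?_ h1
    intro I _ J _ hIJ
    exact (preimage_injective.2 e.surjective) hIJ
  · rintro _ ⟨I, hI, rfl⟩
    obtain ⟨h2, a, b, rfl⟩ := hF I hI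
    refine ⟨?_, e.symm a, e.symm b, ?_⟩
    · obtain ⟨x, hx⟩ := h2
      exact ⟨e.symm x, by simpa using hx⟩
    · ext x
      simp [e.lt_symm_apply, e.symm_apply_lt]
  · rintro _ ⟨I, hI, rfl⟩ _ ⟨J, hJ, rfl⟩ hne
    have hne' : I ≠ J := fun h => hne (by rw [h])
    exact (hd hI hJ hne').preimage e

/-- a set of elements of a suborder, as a set of elements of the order -/
noncomputable def imIso {L : Type} [LinearOrder L] {s : Set L} (t : Set s) :
    t ≃o (Subtype.val '' t : Set L) where
  toEquiv := Equiv.Set.image _ t Subtype.val_injective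
  map_rel_iff' := by
    rintro ⟨a, ha⟩ ⟨b, hb⟩
    rfl

theorem Good.sub {L : Type} [LinearOrder L] (h : Good L) {s : Set L} (hs : ¬ s.Countable) :
    Good s := by
  have hinj : ∀ t : Set s, (Subtype.val '' t : Set L).Countable → t.Countable := fun t ht =>
    countable_of_injective_of_countable_image Subtype.val_injective.injOn ht
  refine ⟨⟨not_countable_iff.1 hs, ?_, ?_, ?_⟩, ?_⟩
  · intro t ht
    exact hinj t (h.1.2.1 _ (wellFoundedOn_image.2 ht))
  · intro t ht
    exact hinj t (h.1.2.2.1 _ (wellFoundedOn_image.2 ht))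
  · intro t ht
    exact hinj t (h.1.2.2.2 _ (ht.congr (imIso t)))
  · intro t ht
    exact h.2 _ (ht.congr (imIso t))

theorem Good.congr {L M : Type} [LinearOrder L] [LinearOrder M] (e : L ≃o M) (h : Good L) :
    Good M := by
  have himg : ∀ t : Set M, Nonempty (t ≃o (e ⁻¹' t : Set L)) := fun t =>
    ⟨{ toFun := fun x => ⟨e.symm x.1, by simp⟩
       invFun := fun x => ⟨e x.1, x.2⟩
       left_inv := fun x => by simp
       right_inv := fun x => by simp
       map_rel_iff' := by intro a b; simp }⟩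
  have hc : ∀ t : Set M, (e ⁻¹' t).Countable → t.Countable := fun t ht => by
    have : t = e '' (e ⁻¹' t) := (image_preimage_eq t e.surjective).symm
    rw [this]
    exact ht.image _
  refine ⟨⟨?_, ?_, ?_, ?_⟩, ?_⟩
  · have := h.1.1
    exact e.injective.uncountable
  · intro t ht
    refine hc t (h.1.2.1 _ ?_)
    have h1 := wellFoundedOn_image (r := (· < ·)) (f := e) (s := e ⁻¹' t)
    rw [image_preimage_eq t e.surjective] at h1
    exact (h1.1 ht).mono' fun a _ b _ hab => e.lt_iff_lt.2 hab
  · intro t ht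
    refine hc t (h.1.2.2.1 _ ?_)
    have h1 := wellFoundedOn_image (r := (· > ·)) (f := e) (s := e ⁻¹' t)
    rw [image_preimage_eq t e.surjective] at h1
    exact (h1.1 ht).mono' fun a _ b _ hab => e.lt_iff_lt.2 hab
  · intro t ht
    exact hc t (h.1.2.2.2 _ (ht.congr (himg t).some))
  · intro t ht
    exact h.2 _ (ht.congr (himg t).some)

/-- an uncountable type has a subset of size `ℵ₁` -/
theorem exists_aleph_one {α : Type} (h : Uncountable α) :
    ∃ s : Set α, ¬ s.Countable ∧ Cardinal.mk s = Cardinal.aleph 1 := by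
  have h1 : Cardinal.aleph 1 ≤ Cardinal.mk α := by
    rw [← not_countable_iff, ← Cardinal.mk_le_aleph0_iff, not_le] at h
    rw [← Cardinal.succ_aleph0]
    exact Order.succ_le_of_lt h
  obtain ⟨s, hs⟩ := Cardinal.le_mk_iff_exists_set.1 h1
  refine ⟨s, ?_, hs⟩
  rw [← Cardinal.le_aleph0_iff_set_countable, hs, not_le]
  exact Cardinal.aleph0_lt_aleph_one

/-- an injection from a set of size `ℵ₁` into an uncountable type -/
theorem exists_inj {α β : Type} {s : Set α} (hs : Cardinal.mk s = Cardinal.aleph 1)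
    (h : Uncountable β) : ∃ f : s → β, Function.Injective f := by
  obtain ⟨t, -, ht⟩ := exists_aleph_one h
  have : Cardinal.mk s = Cardinal.mk t := by rw [hs, ht]
  obtain ⟨e⟩ := Cardinal.eq.1 this
  exact ⟨fun x => (e x).1, Subtype.val_injective.comp e.injective⟩

/-- `f` is strictly monotone or strictly antitone on an uncountable set -/
def MonoSome {L M : Type} [LinearOrder L] [LinearOrder M] (f : L → M) : Prop :=
  ∃ Z : Set L, ¬ Z.Countable ∧ (StrictMonoOn f Z ∨ StrictAntiOn f Z)

theorem monoSome_of_compat {L C : Type} [LinearOrder L] [LinearOrder C] (hC : Countryman C)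
    (h : Compatible L C) (f : L → C) (hf : Function.Injective f) : MonoSome f := by
  obtain ⟨s, t, hs, ht, hst⟩ := h
  obtain ⟨-, K, hK1, hK2⟩ := hC
  have hmem : ∀ x y : C, ∃ n, (x, y) ∈ K n := fun x y => by
    have : (x, y) ∈ ⋃ n, K n := by rw [hK1]; trivial
    exact mem_iUnion.1 this
  choose c hc using hmem
  -- the monotone or antitone map
  obtain ⟨g, hg⟩ : ∃ g : L → C, StrictMonoOn g s ∨ StrictAntiOn g s := by
    classical
    have hne : s.Nonempty := by
      by_contra h0
      rw [not_nonempty_iff_eq_empty] at h0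
      exact hs (h0 ▸ countable_empty)
    rcases hst with ⟨⟨e⟩⟩ | ⟨⟨e⟩⟩
    · refine ⟨fun x => if hx : x ∈ s then (e ⟨x, hx⟩).1 else (e ⟨_, hne.some_mem⟩).1, Or.inl ?_⟩
      intro x hx y hy hxy
      simp only [dif_pos hx, dif_pos hy]
      exact e.strictMono (a := ⟨x, hx⟩) (b := ⟨y, hy⟩) hxy
    · refine ⟨fun x => if hx : x ∈ s then (e (OrderDual.toDual ⟨x, hx⟩)).1 else
        (e (OrderDual.toDual ⟨_, hne.some_mem⟩)).1, Or.inr ?_⟩
      intro x hx y hy hxy
      simp only [dif_pos hx, dif_pos hy]
      exact e.strictMono (a := OrderDual.toDual ⟨y, hy⟩) (b := OrderDual.toDual ⟨x, hx⟩) hxy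
  obtain ⟨n, hn⟩ := exists_fiber hs fun x => c (f x) (g x)
  refine ⟨_, hn, ?_⟩
  have hmemK : ∀ x ∈ {x ∈ s | c (f x) (g x) = n}, (f x, g x) ∈ K n := by
    intro x hx
    rw [← hx.2]
    exact hc _ _
  rcases hg with hg | hg
  · left
    intro x hx y hy hxy
    have h1 := hg hx.1 hy.1 hxy
    rcases (hK2 n).total (hmemK x hx) (hmemK y hy) with h2 | h2
    · exact lt_of_le_of_ne h2.1 fun h3 => hxy.ne (hf h3)
    · exact absurd h2.2 (not_le.2 h1)
  · right
    intro x hx y hy hxy
    have h1 := hg hx.1 hy.1 hxy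
    rcases (hK2 n).total (hmemK x hx) (hmemK y hy) with h2 | h2
    · exact absurd h2.2 (not_le.2 h1)
    · exact lt_of_le_of_ne h2.1 fun h3 => hxy.ne (hf h3).symm

/-- A monotone or antitone map on an uncountable set makes the lines compatible. -/
theorem compat_of_monoSome {L M : Type} [LinearOrder L] [LinearOrder M] (f : L → M)
    (h : MonoSome f) : Compatible L M := by
  obtain ⟨Z, hZ, h⟩ := h
  rcases h with h | h
  · refine ⟨Z, f '' Z, hZ, fun hc => hZ ?_, Or.inl ⟨h.orderIso f Z⟩⟩
    exact countable_of_injective_of_countable_image h.injOn hc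
  · refine ⟨Z, f '' Z, hZ, fun hc => hZ ?_, Or.inr ⟨?_⟩⟩
    · exact countable_of_injective_of_countable_image h.injOn hc
    · refine ⟨(Equiv.Set.imageOfInjOn f Z h.injOn), ?_⟩
      rintro a b
      exact h.le_iff_ge (OrderDual.ofDual a).2 (OrderDual.ofDual b).2

end Pool.Agent.H497
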