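import Pool.Agent.H497_Compat.CGen
import Pool.Agent.Y128.WD.DS

/-!
# Coherent families which code a function on the countable ordinals
-/

set_option autoImplicit false

open Set

namespace Pool.Agent.H497.Gen

open Pool.Agent.Helper330.DPK.Coh

/-! ### Closure points -/

theorem exists_ub {D : Set W} (hD : D.Countable) : ∃ b, ∀ x ∈ D, x < b := by
  by_contra h
  push Not at h
  have h1 : (univ : Set W) ⊆ ⋃ x ∈ D, Iic x := by
    intro b _
    obtain ⟨x, hx, hb⟩ := h b
    exact mem_biUnion hx hb
  have h2 : (univ : Set W).Countable := (hD.biUnion fun x _ => countable_Iic x).mono h1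
  exact (not_countable_iff.2 uncountable_W) (countable_univ_iff.1 h2)

theorem isClub_clos (c : W → W) : IsClub {δ : W | ∀ β < δ, c β < δ} := by
  constructor
  · intro d hd hne _ a ha β hβ
    have : ¬ a ≤ β := not_le.2 hβ
    have h1 : ¬ ∀ x ∈ d, x ≤ β := fun h => this (ha.2 h)
    push Not at h1
    obtain ⟨x, hx, hβx⟩ := h1
    exact (hd hx β hβx).trans_le (ha.1 hx)
  · intro a
    have hb : ∀ x : W, ∃ b, x < b ∧ ∀ y ≤ x, c y < b := by
      intro x
      obtain ⟨b, hb⟩ := exists_ub (((countable_Iic x).image c).union (countable_singleton x))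
      exact ⟨b, hb x (Or.inr rfl), fun y hy => hb _ (Or.inl ⟨y, hy, rfl⟩)⟩
    choose b hb1 hb2 using hb
    let g : ℕ → W := fun n => Nat.rec (motive := fun _ => W) a (fun _ r => b r) n
    have hg0 : g 0 = a := rfl
    have hg1 : ∀ n, g (n + 1) = b (g n) := fun n => rfl
    obtain ⟨u, hu⟩ := exists_ub (countable_range g)
    have hne : {x : W | ∀ n, g n ≤ x}.Nonempty := ⟨u, fun n => (hu _ ⟨n, rfl⟩).le⟩
    refine ⟨(wellFounded_lt (α := W)).min _ hne, ?_, ?_⟩
    · intro β hβ
      have h1 : ¬ ∀ n, g n ≤ β := fun h =>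
        (wellFounded_lt (α := W)).not_lt_min {x : W | ∀ n, g n ≤ x} (x := β) h hβ
      push Not at h1
      obtain ⟨n, hn⟩ := h1
      have h2 := hb2 (g n) β hn.le
      rw [← hg1] at h2
      exact h2.trans_le ((wellFounded_lt (α := W)).min_mem _ hne (n + 1))
    · rw [← hg0]
      exact (wellFounded_lt (α := W)).min_mem _ hne 0

/-- the set of the closure points of a map with countable values contains a club -/
theorem exists_club (G : W → Set W) (hG : ∀ β, (G β).Countable) :
    ∃ E : Set W, IsClub E ∧ ∀ δ ∈ E, ∀ β < δ, ∀ x ∈ G β, x < δ := by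
  have h : ∀ β, ∃ b, ∀ x ∈ G β, x < b := fun β => exists_ub (hG β)
  choose c hc using h
  exact ⟨_, isClub_clos c, fun δ hδ β hβ x hx => (hc β x hx).trans (hδ β hβ)⟩

theorem cof_W : Cardinal.aleph0 < Order.cof W := by
  rw [Ordinal.cof_toType, (Cardinal.isRegular_aleph_one).cof_ord]
  exact Cardinal.aleph0_lt_aleph_one

/-! ### Ladders -/

theorem exists_ladder (a : W) : ∃ C : Set W, (∀ x ∈ C, x < a) ∧
    (∀ b < a, (C ∩ Iio b).Finite) ∧
    ((Iio a).Nonempty → (∀ b < a, ∃ c, b < c ∧ c < a) → C.Infinite) := by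
  rcases (Set.Iio a).eq_empty_or_nonempty with h0 | h0
  · exact ⟨∅, by simp, by simp, fun h => absurd h0 h.ne_empty⟩
  obtain ⟨e, he⟩ := (countable_Iio a).exists_eq_range h0
  have hea : ∀ n, e n < a := fun n => by
    have : e n ∈ Set.Iio a := he ▸ Set.mem_range_self n
    exact this
  let s : ℕ → W := fun n => Nat.rec (motive := fun _ => W) (e 0) (fun k r => max r (e (k + 1))) n
  have hs0 : s 0 = e 0 := rfl
  have hs1 : ∀ n, s (n + 1) = max (s n) (e (n + 1)) := fun n => rfl
  have hsa : ∀ n, s n < a := by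
    intro n
    induction n with
    | zero => exact hea 0
    | succ n ih => rw [hs1]; exact max_lt ih (hea _)
  have hse : ∀ n, e n ≤ s n := by
    intro n
    cases n with
    | zero => exact le_rfl
    | succ n => rw [hs1]; exact le_max_right _ _
  have hmono : Monotone s := monotone_nat_of_le_succ fun n => by
    rw [hs1]; exact le_max_left _ _
  have hcof : ∀ x, x < a → ∃ n, x ≤ s n := by
    intro x hx
    have : x ∈ Set.range e := he ▸ hx
    obtain ⟨n, rfl⟩ := this
    exact ⟨n, hse n⟩
  refine ⟨range s, ?_, ?_, ?_⟩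
  · rintro _ ⟨n, rfl⟩
    exact hsa n
  · intro b hb
    obtain ⟨n0, hn0⟩ := hcof b hb
    apply ((Set.finite_Iio n0).image s).subset
    rintro _ ⟨⟨n, rfl⟩, hn⟩
    refine ⟨n, ?_, rfl⟩
    by_contra h
    have h1 : n0 ≤ n := not_lt.1 h
    exact absurd (hn0.trans (hmono h1)) (not_le.2 hn)
  · intro _ hlim hfin
    obtain ⟨m, hm, hmax⟩ := hfin.exists_maximalFor id _ (range_nonempty s)
    obtain ⟨k, rfl⟩ := hm
    obtain ⟨c, hc1, hc2⟩ := hlim (s k) (hsa k)
    obtain ⟨n, hn⟩ := hcof c hc2
    have h1 : s k ≤ s n := hc1.le.trans hn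
    have h2 := hmax ⟨n, rfl⟩ h1
    exact absurd (hc1.trans_le hn) (not_lt.2 h2)

/-- a ladder at `a` -/
noncomputable def lad (a : W) : Set W := (exists_ladder a).choose

theorem lad_lt {a x : W} (h : x ∈ lad a) : x < a := (exists_ladder a).choose_spec.1 x h

theorem lad_fin {a b : W} (h : b < a) : (lad a ∩ Iio b).Finite :=
  (exists_ladder a).choose_spec.2.1 b h

theorem lad_inf {a : W} (h : (Iio a).Nonempty) (h' : ∀ b < a, ∃ c, b < c ∧ c < a) :
    (lad a).Infinite := (exists_ladder a).choose_spec.2.2 h h'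

/-! ### Coherent families with prescribed parities on the ladders -/

/-- Requirement on the new function at level `a`. -/
structure CG2 (a : W) (c : Bool) (g : W → ℕ) (prev : ∀ b, b < a → (W → ℕ)) : Prop where
  cg : CG a g prev
  par : ∀ x ∈ lad a, ((g x + 1) % 2 = 1 ↔ c = true)

theorem CG2_exists (a : W) (c : Bool) (g : W → W → ℕ)
    (hfin : ∀ b, b < a → ∀ m, {x | x < b ∧ g b x ≤ m}.Finite)
    (hcoh : ∀ b, b < a → ∀ c, c < b → {x | x < c ∧ g b x ≠ g c x}.Finite) :
    ∃ g', CG2 a c g' (fun b _ => g b) := by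
  classical
  obtain ⟨g', h1, h2⟩ := CG_exists a g hfin hcoh
  refine ⟨fun x => if x ∈ lad a then 2 * g' x + (if c then 0 else 1) else g' x, ⟨?_, ?_⟩, ?_⟩
  · intro m
    apply (h1 m).subset
    rintro x ⟨hx, hm⟩
    refine ⟨hx, ?_⟩
    split_ifs at hm <;> omega
  · intro b hb
    apply ((h2 b hb).union (lad_fin hb)).subset
    rintro x ⟨hx, hne⟩
    by_cases hxl : x ∈ lad a
    · right; exact ⟨hxl, hx⟩
    · left
      refine ⟨hx, ?_⟩
      rwa [if_neg hxl] at hne
  · intro x hx
    rw [if_pos hx]
    cases c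
    · simp
      omega
    · simp

open Classical in
/-- A coherent family of finite-to-one functions with the parities given by `col`. -/
noncomputable def cc (col : W → Bool) : W → (W → ℕ) :=
  (wellFounded_lt (α := W)).fix
    (fun a prev => if h : ∃ g', CG2 a (col a) g' prev then h.choose else fun _ => 0)

open Classical in
theorem cc_eq (col : W → Bool) (a : W) : cc col a =
    if h : ∃ g', CG2 a (col a) g' (fun b _ => cc col b) then h.choose else fun _ => 0 :=
  (wellFounded_lt (α := W)).fix_eq
    (fun a prev => if h : ∃ g', CG2 a (col a) g' prev then h.choose else fun _ => 0) a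

theorem cc_spec (col : W → Bool) (a : W) :
    CG2 a (col a) (cc col a) (fun b _ => cc col b) := by
  classical
  induction a using WellFoundedLT.induction with
  | ind a ih =>
  have h : ∃ g', CG2 a (col a) g' (fun b _ => cc col b) :=
    CG2_exists a (col a) (cc col) (fun b hb => (ih b hb).cg.fin) (fun b hb => (ih b hb).cg.coh)
  rw [cc_eq, dif_pos h]
  exact h.choose_spec

/-- the coherent family coding `col` -/
noncomputable def fam (col : W → Bool) : Fam where
  f := cc col
  fin a m := (cc_spec col a).cg.fin m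
  coh a b := by
    rcases lt_trichotomy a b with h | h | h
    · apply ((cc_spec col b).cg.coh a h).subset
      rintro x ⟨h1, h2, h3⟩
      exact ⟨h1, fun h4 => h3 h4.symm⟩
    · subst h
      convert Set.finite_empty (α := W)
      ext x
      simp
    · apply ((cc_spec col a).cg.coh b h).subset
      rintro x ⟨h1, h2, h3⟩
      exact ⟨h2, h3⟩

theorem fam_par (col : W → Bool) (a : W) (x : W) (h : x ∈ lad a) :
    ((fam col).f a x + 1) % 2 = 1 ↔ col a = true := (cc_spec col a).par x h

end Pool.Agent.H497.Gen
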